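import Pool.Agent.Work.MP_611b97_al.Tools

/-!
# Counterexamples from central extensions of residually finite soluble groups
-/

set_option autoImplicit false

namespace MP611b97

/-- Residually finite-soluble groups are contained in quotients of bi-orderable groups with
metabelian kernel. -/
theorem res_cover {Q : Type} [Group Q]
    (hres : ∀ q : Q, q ≠ 1 → ∃ (F : Type) (_ : Group F), Finite F ∧
      (∃ n : ℕ, derivedSeries F n = ⊥) ∧ ∃ f : Q →* F, f q ≠ 1) :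
    ∃ (L F : Type) (_ : Group L) (_ : Group F) (Φ : L →* F) (Ψ : Q →* F),
      Function.Surjective Φ ∧ Function.Injective Ψ ∧ BiOrd L ∧
      (∀ a b c d, Φ a = 1 → Φ b = 1 → Φ c = 1 → Φ d = 1 →
        (a * b * a⁻¹ * b⁻¹) * (c * d * c⁻¹ * d⁻¹) = (c * d * c⁻¹ * d⁻¹) * (a * b * a⁻¹ * b⁻¹)) := by
  classical
  have h1 : ∀ q : {q : Q // q ≠ 1}, ∃ (F : Type) (_ : Group F), Cov F ∧ ∃ f : Q →* F, f q ≠ 1 := by
    rintro ⟨q, hq⟩
    obtain ⟨F, _, hF, ⟨n, hn⟩, f, hf⟩ := hres q hq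
    exact ⟨F, inferInstance, cov_of_derivedSeries n F hn, f, hf⟩
  choose F gF hcov f hf using h1
  choose L B gL gB α β hα hβ hα' hβ' hL hB using hcov
  refine ⟨∀ q, L q, ∀ q, F q, inferInstance, inferInstance,
    Pi.monoidHom (fun q => ((β q).comp (α q)).comp (Pi.evalMonoidHom L q)),
    Pi.monoidHom f, ?_, ?_, BiOrd.pi hL, ?_⟩
  · intro y
    have h2 : ∀ q, ∃ l : L q, β q (α q l) = y q := by
      intro q
      obtain ⟨b, hb⟩ := hβ q (y q)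
      obtain ⟨l, rfl⟩ := hα q b
      exact ⟨l, hb⟩
    choose l hl using h2
    exact ⟨l, funext hl⟩
  · rw [injective_iff_map_eq_one]
    intro q hq
    by_contra hne
    exact hf ⟨q, hne⟩ (congrFun hq ⟨q, hne⟩)
  · intro a b c d ha hb hc hd
    funext q
    have hβa : β q (α q (a q)) = 1 := congrFun ha q
    have hβb : β q (α q (b q)) = 1 := congrFun hb q
    have hβc : β q (α q (c q)) = 1 := congrFun hc q
    have hβd : β q (α q (d q)) = 1 := congrFun hd q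
    have e1 : α q (a q * b q * (a q)⁻¹ * (b q)⁻¹) = 1 := by
      rw [map_mul, map_mul, map_mul, map_inv, map_inv, hβ' q _ _ hβa hβb]
      group
    have e2 : α q (c q * d q * (c q)⁻¹ * (d q)⁻¹) = 1 := by
      rw [map_mul, map_mul, map_mul, map_inv, map_inv, hβ' q _ _ hβc hβd]
      group
    exact hα' q _ _ e1 e2

section

variable {Q Γ L F : Type} [Group Q] [Group Γ] [Group L] [Group F]
variable (π : Γ →* Q) (Φ : L →* F) (Ψ : Q →* F)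

/-- The fibre product. -/
def fib : Subgroup (Γ × L) :=
  MonoidHom.eqLocus ((Ψ.comp π).comp (MonoidHom.fst Γ L)) (Φ.comp (MonoidHom.snd Γ L))

theorem mem_fib (p : Γ × L) : p ∈ fib π Φ Ψ ↔ Ψ (π p.1) = Φ p.2 := Iff.rfl

/-- The projection of the fibre product to `Q`. -/
def fpr : fib π Φ Ψ →* Q := (π.comp (MonoidHom.fst Γ L)).comp (fib π Φ Ψ).subtype

theorem fpr_apply (g : fib π Φ Ψ) : fpr π Φ Ψ g = π (g : Γ × L).1 := rfl

variable {π Φ Ψ}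

theorem fib_tf (hΨ : Function.Injective Ψ) (hL : BiOrd L)
    (htf : ∀ a ∈ π.ker, ∀ n : ℕ, 0 < n → a ^ n = 1 → a = 1) (g : fib π Φ Ψ) (n : ℕ)
    (hn : 0 < n) (hg : g ^ n = 1) : g = 1 := by
  obtain ⟨⟨γ, l⟩, hgl⟩ := g
  have h1 : ((γ, l) : Γ × L) ^ n = 1 := congrArg Subtype.val hg
  have h2 : γ ^ n = 1 := congrArg Prod.fst h1
  have h3 : l ^ n = 1 := congrArg Prod.snd h1
  have h4 : l = 1 := hL.torsionFree hn h3
  rw [mem_fib] at hgl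
  simp only at hgl
  have h5 : π γ = 1 := by
    apply hΨ
    rw [hgl, h4, map_one, map_one]
  have h6 : γ = 1 := htf γ h5 n hn h2
  apply Subtype.ext
  apply Prod.ext
  · exact h6
  · exact h4

theorem fib_metab (hcen : π.ker ≤ Subgroup.center Γ)
    (hmet : ∀ a b c d, Φ a = 1 → Φ b = 1 → Φ c = 1 → Φ d = 1 →
        (a * b * a⁻¹ * b⁻¹) * (c * d * c⁻¹ * d⁻¹) = (c * d * c⁻¹ * d⁻¹) * (a * b * a⁻¹ * b⁻¹)) :
    derivedSeries (fpr π Φ Ψ).ker 2 = ⊥ := by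
  rw [derivedSeries_succ, Subgroup.commutator_eq_bot_iff_le_centralizer]
  -- commutators of elements of the kernel
  have hker : ∀ h : (fpr π Φ Ψ).ker, ((h : fib π Φ Ψ) : Γ × L).1 ∈ π.ker ∧
      Φ ((h : fib π Φ Ψ) : Γ × L).2 = 1 := by
    rintro ⟨⟨⟨γ, l⟩, hgl⟩, hk⟩
    have h1 : π γ = 1 := hk
    rw [mem_fib] at hgl
    simp only at hgl
    refine ⟨h1, ?_⟩
    change Φ l = 1
    rw [← hgl, h1, map_one]
  have hcomm : ∀ a b c d : (fpr π Φ Ψ).ker,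
      (a * b * a⁻¹ * b⁻¹) * (c * d * c⁻¹ * d⁻¹) = (c * d * c⁻¹ * d⁻¹) * (a * b * a⁻¹ * b⁻¹) := by
    intro a b c d
    apply Subtype.ext
    apply Subtype.ext
    apply Prod.ext
    · have ha := Subgroup.mem_center_iff.1 (hcen (hker (a * b * a⁻¹ * b⁻¹)).1)
      exact (ha _).symm
    · exact hmet _ _ _ _ (hker a).2 (hker b).2 (hker c).2 (hker d).2
  rw [derivedSeries_succ, derivedSeries_zero]
  have h1 : ∀ c d : (fpr π Φ Ψ).ker, ∀ x ∈ (⁅(⊤ : Subgroup (fpr π Φ Ψ).ker), ⊤⁆ : Subgroup _),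
      x * (c * d * c⁻¹ * d⁻¹) = (c * d * c⁻¹ * d⁻¹) * x := by
    intro c d x hx
    rw [Subgroup.commutator_def] at hx
    refine Subgroup.closure_induction (p := fun x _ => x * (c * d * c⁻¹ * d⁻¹) =
      (c * d * c⁻¹ * d⁻¹) * x) ?_ ?_ ?_ ?_ hx
    · rintro _ ⟨a, _, b, _, rfl⟩
      rw [commutatorElement_def]
      exact hcomm a b c d
    · simp
    · intro u v _ _ hu hv
      rw [mul_assoc, hv, ← mul_assoc, hu, mul_assoc]
    · intro u _ hu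
      have h : Commute u (c * d * c⁻¹ * d⁻¹) := hu
      exact h.inv_left.eq
  intro x hx
  rw [Subgroup.mem_centralizer_iff]
  intro y hy
  have hy' : y ∈ (⁅(⊤ : Subgroup (fpr π Φ Ψ).ker), ⊤⁆ : Subgroup _) := hy
  rw [Subgroup.commutator_def] at hy'
  refine Subgroup.closure_induction (p := fun y _ => y * x = x * y) ?_ ?_ ?_ ?_ hy'
  · rintro _ ⟨c, _, d, _, rfl⟩
    rw [commutatorElement_def]
    exact (h1 c d x hx).symm
  · simp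
  · intro u v _ _ hu hv
    rw [mul_assoc, hv, ← mul_assoc, hu, mul_assoc]
  · intro u _ hu
    have h : Commute u x := hu
    exact h.inv_left.eq

/-- The lexicographic cone on the kernel. -/
def lexP (π : Γ →* Q) (Φ : L →* F) (Ψ : Q →* F) (PA : Set Γ) (PL : Set L) :
    Set (fib π Φ Ψ) :=
  {g | g ∈ (fpr π Φ Ψ).ker ∧ ((g : Γ × L).1 ∈ PA ∨ ((g : Γ × L).1 = 1 ∧ (g : Γ × L).2 ∈ PL))}

theorem lexP_spec (hcen : π.ker ≤ Subgroup.center Γ) {PA : Set Γ} {PL : Set L}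
    (a1 : ∀ a ∈ PA, ∀ b ∈ PA, a * b ∈ PA) (a2 : (1 : Γ) ∉ PA)
    (a3 : ∀ a ∈ π.ker, a ≠ 1 → a ∈ PA ∨ a⁻¹ ∈ PA) (a0 : PA ⊆ (π.ker : Set Γ))
    (l1 : ∀ a ∈ PL, ∀ b ∈ PL, a * b ∈ PL) (l2 : (1 : L) ∉ PL)
    (l3 : ∀ g : L, g ≠ 1 → g ∈ PL ∨ g⁻¹ ∈ PL) (l4 : ∀ g : L, ∀ a ∈ PL, g * a * g⁻¹ ∈ PL) :
    lexP π Φ Ψ PA PL ⊆ ((fpr π Φ Ψ).ker : Set (fib π Φ Ψ)) ∧
    (∀ a ∈ lexP π Φ Ψ PA PL, ∀ b ∈ lexP π Φ Ψ PA PL, a * b ∈ lexP π Φ Ψ PA PL) ∧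
    (1 : fib π Φ Ψ) ∉ lexP π Φ Ψ PA PL ∧
    (∀ h ∈ (fpr π Φ Ψ).ker, h ≠ 1 → h ∈ lexP π Φ Ψ PA PL ∨ h⁻¹ ∈ lexP π Φ Ψ PA PL) ∧
    (∀ g : fib π Φ Ψ, ∀ a ∈ lexP π Φ Ψ PA PL, g * a * g⁻¹ ∈ lexP π Φ Ψ PA PL) := by
  refine ⟨fun g hg => hg.1, ?_, ?_, ?_, ?_⟩
  · rintro ⟨⟨a, l⟩, _⟩ ⟨ha, ha' | ⟨ha', ha''⟩⟩ ⟨⟨b, m⟩, _⟩ ⟨hb, hb' | ⟨hb', hb''⟩⟩
    · exact ⟨Subgroup.mul_mem _ ha hb, Or.inl (a1 _ ha' _ hb')⟩
    · refine ⟨Subgroup.mul_mem _ ha hb, Or.inl ?_⟩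
      change a * b ∈ PA
      have hb1 : b = 1 := hb'
      rw [hb1, mul_one]
      exact ha'
    · refine ⟨Subgroup.mul_mem _ ha hb, Or.inl ?_⟩
      change a * b ∈ PA
      have ha1 : a = 1 := ha'
      rw [ha1, one_mul]
      exact hb'
    · refine ⟨Subgroup.mul_mem _ ha hb, Or.inr ⟨?_, l1 _ ha'' _ hb''⟩⟩
      change a * b = 1
      have ha1 : a = 1 := ha'
      have hb1 : b = 1 := hb'
      rw [ha1, hb1, one_mul]
  · rintro ⟨_, h | ⟨_, h⟩⟩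
    · exact a2 h
    · exact l2 h
  · rintro ⟨⟨a, l⟩, hal⟩ hh hne
    have haker : a ∈ π.ker := hh
    by_cases ha : a = 1
    · have hl : l ≠ 1 := by
        intro hl
        apply hne
        apply Subtype.ext
        exact Prod.ext ha hl
      rcases l3 l hl with h | h
      · exact Or.inl ⟨hh, Or.inr ⟨ha, h⟩⟩
      · refine Or.inr ⟨Subgroup.inv_mem _ hh, Or.inr ⟨?_, h⟩⟩
        change a⁻¹ = 1
        rw [ha, inv_one]
    · rcases a3 a haker ha with h | h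
      · exact Or.inl ⟨hh, Or.inl h⟩
      · exact Or.inr ⟨Subgroup.inv_mem _ hh, Or.inl h⟩
  · rintro ⟨⟨g, k⟩, hgk⟩ ⟨⟨a, l⟩, hal⟩ ⟨hh, h⟩
    refine ⟨Subgroup.Normal.conj_mem inferInstance _ hh _, ?_⟩
    rcases h with h | ⟨h, h'⟩
    · left
      change g * a * g⁻¹ ∈ PA
      have ha : a ∈ PA := h
      have hc := Subgroup.mem_center_iff.1 (hcen (a0 ha)) g
      rw [hc, mul_inv_cancel_right]
      exact ha
    · right
      refine ⟨?_, l4 _ _ h'⟩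
      change g * a * g⁻¹ = 1
      have ha : a = 1 := h
      rw [ha, mul_one, mul_inv_cancel]

/-- The order does not extend. -/
theorem no_extension (hΦ : Function.Surjective Φ) {PA : Set Γ} {PL : Set L} {x y : Γ} {n : ℕ}
    (hx : x ^ n = 1) (hy : y ^ n = 1) (hxy : (x * y) ^ n ∈ PA)
    (hxy' : π ((x * y) ^ n) = 1)
    (R : Set (fib π Φ Ψ)) (hmul : ∀ a ∈ R, ∀ b ∈ R, a * b ∈ R) (hone : (1 : fib π Φ Ψ) ∉ R)
    (htot : ∀ g, g ≠ 1 → g ∈ R ∨ g⁻¹ ∈ R) (hconj : ∀ g, ∀ a ∈ R, g * a * g⁻¹ ∈ R)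
    (hext : ∀ h ∈ (fpr π Φ Ψ).ker, (h ∈ R ↔ h ∈ lexP π Φ Ψ PA PL)) : False := by
  obtain ⟨lx, hlx⟩ := hΦ (Ψ (π x))
  obtain ⟨ly, hly⟩ := hΦ (Ψ (π y))
  set a : fib π Φ Ψ := ⟨(x, lx), hlx.symm⟩ with ha
  set b : fib π Φ Ψ := ⟨(y, ly), hly.symm⟩ with hb
  have ha1 : ((a ^ n : fib π Φ Ψ) : Γ × L).1 = 1 := by
    have : ((a ^ n : fib π Φ Ψ) : Γ × L).1 = x ^ n := by
      simp [ha]
    rw [this, hx]
  have hb1 : ((b ^ n : fib π Φ Ψ) : Γ × L).1 = 1 := by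
    have : ((b ^ n : fib π Φ Ψ) : Γ × L).1 = y ^ n := by
      simp [hb]
    rw [this, hy]
  have hab1 : (((a * b) ^ n : fib π Φ Ψ) : Γ × L).1 = (x * y) ^ n := by
    simp [ha, hb]
  have key : ∀ u v : fib π Φ Ψ, (u : Γ × L).1 = 1 → (v : Γ × L).1 = 1 →
      (u * v)⁻¹ * (a * b) ^ n ∈ R := by
    intro u v hu hv
    have e : (((u * v)⁻¹ * (a * b) ^ n : fib π Φ Ψ) : Γ × L).1 = (x * y) ^ n := by
      change ((u : Γ × L).1 * (v : Γ × L).1)⁻¹ * (((a * b) ^ n : fib π Φ Ψ) : Γ × L).1 = _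
      rw [hu, hv, hab1, one_mul, inv_one, one_mul]
    have hk : (u * v)⁻¹ * (a * b) ^ n ∈ (fpr π Φ Ψ).ker := by
      rw [MonoidHom.mem_ker, fpr_apply, e]
      exact hxy'
    rw [hext _ hk]
    refine ⟨hk, Or.inl ?_⟩
    rw [e]
    exact hxy
  exact pow_between R hmul hone htot hconj a b n (key _ _ ha1 hb1) (key _ _ hb1 ha1)

end

end MP611b97
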