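import Pool.Agent.Work.MP_611b97_al.Push

/-!
# Closure of the positive elements from central extensions of the quotient
-/

set_option autoImplicit false

namespace MP611b97

universe u

variable {G : Type u} [Group G] {H C : Subgroup G} {P : Set G}

theorem arch_max (hc : Cone H P) [hH : H.Normal] {a b c : G} (ha : a ∈ P) (hb : b ∈ P)
    (hc' : c ∈ P) : ∃ (u : G) (hu : u ∈ P), (u = a ∨ u = b ∨ u = c) ∧
      a ∈ arch hc u hu ∧ b ∈ arch hc u hu ∧ c ∈ arch hc u hu := by
  have key : ∀ {a b : G} (ha : a ∈ P) (hb : b ∈ P), a ∈ arch hc b hb ∨ b ∈ arch hc a ha := by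
    intro a b ha hb
    rcases cvx_total hc (arch_cvx hc ha) (arch_cvx hc hb) with h | h
    · exact Or.inl (h (arch_self hc ha))
    · exact Or.inr (h (arch_self hc hb))
  have tr : ∀ {a b : G} (ha : a ∈ P) (hb : b ∈ P), a ∈ arch hc b hb →
      arch hc a ha ≤ arch hc b hb := fun ha hb h => arch_le hc ha (arch_cvx hc hb) h
  rcases key ha hb with h1 | h1
  · rcases key hb hc' with h2 | h2
    · exact ⟨c, hc', Or.inr (Or.inr rfl), tr hb hc' h2 h1, h2, arch_self hc hc'⟩
    · exact ⟨b, hb, Or.inr (Or.inl rfl), h1, arch_self hc hb, h2⟩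
  · rcases key ha hc' with h2 | h2
    · exact ⟨c, hc', Or.inr (Or.inr rfl), h2, tr ha hc' h2 h1, arch_self hc hc'⟩
    · exact ⟨a, ha, Or.inl rfl, arch_self hc ha, h1, h2⟩

theorem mem_of_mul_mem (hC : Cvx H P C) {a b : G} (ha : a ∈ P) (hb : b ∈ P) (hab : a * b ∈ C) :
    a ∈ C ∧ b ∈ C := by
  have h1 : a ∈ C := hC.2 _ hab a ha (by rwa [inv_mul_cancel_left])
  refine ⟨h1, ?_⟩
  have := C.mul_mem (C.inv_mem h1) hab
  rwa [inv_mul_cancel_left] at this

/-- The two-generator case. -/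
theorem no_bad_triple (hc : Cone H P) [hH : H.Normal] {Q : Type u} [Group Q]
    (hT : TorsClosed Q) (φ : G →* Q) (hφ : φ.ker = H) {x y : G}
    (hgen : Subgroup.closure {x, y} = ⊤) {n : ℕ} (hn : 0 < n) (hx : x ^ n ∈ P) (hy : y ^ n ∈ P)
    (hz : ((x * y)⁻¹) ^ n ∈ P) : False := by
  obtain ⟨u, hu, hu', hxu, hyu, hzu⟩ := arch_max hc hx hy hz
  obtain ⟨hNn, hcen⟩ := top_central hc hgen hn hu hxu hyu
  set N := below H P u with hN
  have hNc : Cvx H P N := cvx_below hc hu
  have huN : u ∉ N := not_mem_below hc hu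
  have hker : ∀ g ∈ N, φ g = 1 := by
    intro g hg
    rw [← MonoidHom.mem_ker, hφ]
    exact hNc.1 hg
  set π : G ⧸ N →* Q := QuotientGroup.lift N φ hker with hπ
  have hπmk : ∀ g : G, π (QuotientGroup.mk' N g) = φ g := fun g => rfl
  have hmem : ∀ g : G, QuotientGroup.mk' N g ∈ π.ker ↔ g ∈ H := by
    intro g
    rw [MonoidHom.mem_ker, hπmk, ← hφ, MonoidHom.mem_ker]
  have h1 : π.ker ≤ Subgroup.center (G ⧸ N) := by
    intro g' hg'
    obtain ⟨g, rfl⟩ := QuotientGroup.mk'_surjective N g'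
    rw [hmem] at hg'
    rw [Subgroup.mem_center_iff]
    intro r'
    obtain ⟨r, rfl⟩ := QuotientGroup.mk'_surjective N r'
    have := hcen g hg' r
    rw [cm_mem_iff] at this
    exact this.eq.symm
  have h2 : ∀ a ∈ π.ker, ∀ n : ℕ, 0 < n → a ^ n = 1 → a = 1 := by
    intro g' hg' k hk hgk
    obtain ⟨g, rfl⟩ := QuotientGroup.mk'_surjective N g'
    rw [hmem] at hg'
    rw [← map_pow] at hgk
    have h3 : g ^ k ∈ N := (QuotientGroup.eq_one_iff _).1 hgk
    exact (QuotientGroup.eq_one_iff _).2 (conv_root hc hNc.2 hg' ⟨k, hk, h3⟩)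
  have hxk : (QuotientGroup.mk' N x) ^ n ∈ π.ker := by
    rw [← map_pow, hmem]; exact hc.sub hx
  have hyk : (QuotientGroup.mk' N y) ^ n ∈ π.ker := by
    rw [← map_pow, hmem]; exact hc.sub hy
  obtain ⟨m, hm, h⟩ := pow_of_torsClosed hT π h1 h2 hn hxk hyk
  rw [← map_mul, ← map_pow, ← map_pow, ← map_pow, ← map_mul, ← map_pow] at h
  have h3 : ((x * y) ^ (n * m))⁻¹ * (x ^ n * y ^ n) ^ m ∈ N := (QuotientGroup.eq (s := N)).1 h
  have h4 : ((x * y) ^ (n * m))⁻¹ = (((x * y)⁻¹) ^ n) ^ m := by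
    rw [← inv_pow, pow_mul]
  rw [h4] at h3
  obtain ⟨h5, h6⟩ := mem_of_mul_mem hNc (hc.pow hz hm) (hc.pow (hc.mul _ hx _ hy) hm) h3
  have h7 : ((x * y)⁻¹) ^ n ∈ N := conv_root hc hNc.2 (hc.sub hz) ⟨m, hm, h5⟩
  have h8 : x ^ n * y ^ n ∈ N :=
    conv_root hc hNc.2 (hc.sub (hc.mul _ hx _ hy)) ⟨m, hm, h6⟩
  obtain ⟨h9, h10⟩ := mem_of_mul_mem hNc hx hy h8
  apply huN
  rcases hu' with rfl | rfl | rfl
  · exact h9
  · exact h10
  · exact h7

theorem pos_mul_of_torsClosed (tf : TF G) (hc : Cone H P) [hH : H.Normal]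
    (hper : ∀ g : G, g ∈ iso H) (hT : TorsClosed (G ⧸ H)) {x y : G}
    (hpx : Pos P x) (hpy : Pos P y) : Pos P (x * y) := by
  rcases hc.Pos_trichotomy tf (hper (x * y)) with h | h | h
  · exfalso
    have : y = x⁻¹ := by rw [eq_inv_iff_mul_eq_one]; exact (mul_eq_one_iff_eq_inv.1 h) ▸ by simp
    rw [this] at hpy
    exact hc.Pos_not_inv hpx hpy
  · exact h
  · exfalso
    obtain ⟨a, ha, hxa⟩ := hpx
    obtain ⟨b, hb, hyb⟩ := hpy
    obtain ⟨c, hc', hzc⟩ := h
    set n := a * b * c with hn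
    have hn0 : 0 < n := Nat.mul_pos (Nat.mul_pos ha hb) hc'
    have hx : x ^ n ∈ P := by
      rw [hn, mul_assoc, pow_mul]
      exact hc.pow hxa (Nat.mul_pos hb hc')
    have hy : y ^ n ∈ P := by
      rw [hn, mul_comm a b, mul_assoc, pow_mul]
      exact hc.pow hyb (Nat.mul_pos ha hc')
    have hz : ((x * y)⁻¹) ^ n ∈ P := by
      rw [hn, mul_comm, pow_mul]
      exact hc.pow hzc (Nat.mul_pos ha hb)
    set K := Subgroup.closure {x, y} with hK
    have hxK : x ∈ K := Subgroup.subset_closure (by simp)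
    have hyK : y ∈ K := Subgroup.subset_closure (by simp)
    have hgen : Subgroup.closure {(⟨x, hxK⟩ : K), ⟨y, hyK⟩} = (⊤ : Subgroup K) := by
      have h := Subgroup.closure_closure_coe_preimage (k := ({x, y} : Set G))
      rw [← h]
      congr 1
      ext z
      simp only [Set.mem_insert_iff, Set.mem_singleton_iff, Set.mem_preimage]
      constructor
      · rintro (rfl | rfl)
        · left; rfl
        · right; rfl
      · rintro (h1 | h1)
        · left; exact Subtype.ext h1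
        · right; exact Subtype.ext h1
    have hcK : Cone (H.subgroupOf K) {k : K | (k : G) ∈ P} := by
      refine ⟨?_, ?_, ?_, ?_, ?_⟩
      · intro l hl
        exact hc.sub hl
      · intro u hu v hv
        exact hc.mul _ hu _ hv
      · exact hc.one
      · intro h hh hne
        have := hc.tot (h : G) hh (by intro e; exact hne (Subtype.ext e))
        simpa using this
      · intro g u hu
        exact hc.inv _ _ hu
    refine no_bad_triple hcK hT ((QuotientGroup.mk' H).comp K.subtype) ?_ hgen hn0 ?_ ?_ ?_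
    · ext k
      rw [MonoidHom.mem_ker, Subgroup.mem_subgroupOf]
      exact QuotientGroup.eq_one_iff (k : G)
    · exact hx
    · exact hy
    · exact hz

end MP611b97
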