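import Mathlib

/-!
# Ordered normal subgroups: cones, isolators and roots
-/

set_option autoImplicit false

namespace MP611b97

variable {X : Type*} [Group X]

/-- The commutator `x⁻¹ g⁻¹ x g`. -/
def cm (x g : X) : X := x⁻¹ * g⁻¹ * x * g

/-- `P` is the positive cone of an order on `Y` that is invariant under conjugation by `X`. -/
structure Cone (Y : Subgroup X) (P : Set X) : Prop where
  sub : P ⊆ (Y : Set X)
  mul : ∀ a ∈ P, ∀ b ∈ P, a * b ∈ P
  one : (1 : X) ∉ P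
  tot : ∀ h ∈ Y, h ≠ 1 → h ∈ P ∨ h⁻¹ ∈ P
  inv : ∀ g : X, ∀ a ∈ P, g * a * g⁻¹ ∈ P

/-- The isolator of `S`: the elements with a positive power in `S`. -/
def iso (S : Subgroup X) : Set X := {g | ∃ n : ℕ, 0 < n ∧ g ^ n ∈ S}

/-- `g` has a positive power in `P`. -/
def Pos (P : Set X) (g : X) : Prop := ∃ n : ℕ, 0 < n ∧ g ^ n ∈ P

/-- Torsion-free. -/
def TF (X : Type*) [Group X] : Prop := ∀ g : X, ∀ n : ℕ, 0 < n → g ^ n = 1 → g = 1

theorem cm_succ (x g : X) (j : ℕ) :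
    cm x (g ^ (j + 1)) = cm x g * (g⁻¹ * cm x (g ^ j) * g) := by
  unfold cm
  rw [pow_succ]
  group

theorem cm_map {X' : Type*} [Group X'] (f : X →* X') (x g : X) : f (cm x g) = cm (f x) (f g) := by
  simp [cm]

theorem cm_eq_one_iff (x g : X) : cm x g = 1 ↔ Commute x g := by
  unfold cm Commute SemiconjBy
  constructor
  · intro h
    have : x⁻¹ * g⁻¹ * x * g = (g * x)⁻¹ * (x * g) := by group
    rw [this, inv_mul_eq_one] at h
    exact h.symm
  · intro h
    have : x⁻¹ * g⁻¹ * x * g = (g * x)⁻¹ * (x * g) := by group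
    rw [this, inv_mul_eq_one]
    exact h.symm

theorem cm_mem_iff (A : Subgroup X) [A.Normal] (x g : X) :
    cm x g ∈ A ↔ Commute (QuotientGroup.mk' A x) (QuotientGroup.mk' A g) := by
  rw [← cm_eq_one_iff, ← cm_map]
  simp

theorem cm_symm (A : Subgroup X) [A.Normal] {x g : X} (h : cm x g ∈ A) : cm g x ∈ A := by
  rw [cm_mem_iff] at *
  exact h.symm

theorem cm_pow_of_commute {x g : X} (h : Commute (cm x g) g) (k : ℕ) :
    cm x (g ^ k) = (cm x g) ^ k := by
  induction k with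
  | zero => simp [cm]
  | succ j ih =>
    rw [cm_succ, ih]
    have h2 : Commute ((cm x g) ^ j) g := h.pow_left j
    have : g⁻¹ * (cm x g) ^ j * g = (cm x g) ^ j := by
      rw [mul_assoc, h2.eq, inv_mul_cancel_left]
    rw [this, pow_succ']

/-- Modulo a normal subgroup `B`: if `[x, g]` commutes with `g` then `[x, g ^ k]` is `[x, g] ^ k`. -/
theorem cm_pow_mod (B : Subgroup X) [B.Normal] {x g : X} (h : cm (cm x g) g ∈ B) (k : ℕ) :
    (cm x (g ^ k))⁻¹ * (cm x g) ^ k ∈ B := by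
  rw [cm_mem_iff, cm_map] at h
  have := cm_pow_of_commute h k
  have h3 : QuotientGroup.mk' B (cm x (g ^ k)) = QuotientGroup.mk' B ((cm x g) ^ k) := by
    rw [map_pow, cm_map, cm_map, map_pow]
    exact this
  simpa using (QuotientGroup.eq (s := B)).1 h3

namespace Cone

variable {Y : Subgroup X} {P : Set X}

theorem inv' (hc : Cone Y P) (g : X) {a : X} (ha : a ∈ P) : g⁻¹ * a * g ∈ P := by
  simpa using hc.inv g⁻¹ a ha

theorem pow (hc : Cone Y P) {a : X} (ha : a ∈ P) {n : ℕ} (hn : 0 < n) : a ^ n ∈ P := by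
  induction n with
  | zero => omega
  | succ j ih =>
    rcases Nat.eq_zero_or_pos j with rfl | hj
    · simpa using ha
    · rw [pow_succ]
      exact hc.mul _ (ih hj) _ ha

theorem not_both (hc : Cone Y P) {a : X} (ha : a ∈ P) (ha' : a⁻¹ ∈ P) : False := by
  apply hc.one
  simpa using hc.mul _ ha _ ha'

theorem cm_pos (hc : Cone Y P) {x g : X} (h : cm x g ∈ P) (j : ℕ) : cm x (g ^ (j + 1)) ∈ P := by
  induction j with
  | zero => simpa using h
  | succ i ih =>
    rw [cm_succ]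
    exact hc.mul _ h _ (hc.inv' g ih)

theorem cm_neg (hc : Cone Y P) {x g : X} (h : (cm x g)⁻¹ ∈ P) (j : ℕ) :
    (cm x (g ^ (j + 1)))⁻¹ ∈ P := by
  induction j with
  | zero => simpa using h
  | succ i ih =>
    rw [cm_succ]
    have : (cm x g * (g⁻¹ * cm x (g ^ (i + 1)) * g))⁻¹ =
        (g⁻¹ * (cm x (g ^ (i + 1)))⁻¹ * g) * (cm x g)⁻¹ := by group
    rw [this]
    exact hc.mul _ (hc.inv' g ih) _ h

/-- An element whose positive power fixes `x ∈ Y` fixes `x`. -/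
theorem root (hc : Cone Y P) [Y.Normal] {x g : X} (hx : x ∈ Y) {k : ℕ} (hk : 0 < k)
    (h : cm x (g ^ k) = 1) : cm x g = 1 := by
  by_contra hne
  have hY : cm x g ∈ Y := by
    have h1 : g⁻¹ * x * g ∈ Y := by
      simpa using (inferInstance : Y.Normal).conj_mem x hx g⁻¹
    have : cm x g = x⁻¹ * (g⁻¹ * x * g) := by unfold cm; group
    rw [this]
    exact Y.mul_mem (Y.inv_mem hx) h1
  obtain ⟨j, rfl⟩ : ∃ j, k = j + 1 := ⟨k - 1, by omega⟩
  rcases hc.tot _ hY hne with hp | hp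
  · have := hc.cm_pos hp j
    rw [h] at this
    exact hc.one this
  · have := hc.cm_neg hp j
    rw [h, inv_one] at this
    exact hc.one this

/-- The sign of a power that lies in `Y`. -/
theorem pow_mem_of_Pos (hc : Cone Y P) (tf : TF X) {g : X} (hg : Pos P g) {n : ℕ} (hn : 0 < n)
    (h : g ^ n ∈ Y) : g ^ n ∈ P := by
  obtain ⟨m, hm, hmP⟩ := hg
  have hne : g ^ n ≠ 1 := by
    intro h1
    have := tf g n hn h1
    subst this
    rw [one_pow] at hmP
    exact hc.one hmP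
  rcases hc.tot _ h hne with hp | hp
  · exact hp
  · exfalso
    have h1 := hc.pow hp hm
    have h2 := hc.pow hmP hn
    apply hc.not_both h2
    rw [← pow_mul, mul_comm m n, pow_mul, ← inv_pow]
    exact h1

theorem Pos_ne_one (hc : Cone Y P) {g : X} (hg : Pos P g) : g ≠ 1 := by
  rintro rfl
  obtain ⟨m, hm, hmP⟩ := hg
  rw [one_pow] at hmP
  exact hc.one hmP

theorem Pos_not_inv (hc : Cone Y P) {g : X} (hg : Pos P g) (hg' : Pos P g⁻¹) : False := by
  obtain ⟨m, hm, hmP⟩ := hg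
  obtain ⟨n, hn, hnP⟩ := hg'
  have h1 := hc.pow hmP hn
  have h2 := hc.pow hnP hm
  apply hc.not_both h1
  rw [← pow_mul, ← inv_pow, mul_comm m n, pow_mul]
  exact h2

theorem Pos_trichotomy (hc : Cone Y P) (tf : TF X) {g : X} (hg : g ∈ iso Y) :
    g = 1 ∨ Pos P g ∨ Pos P g⁻¹ := by
  obtain ⟨n, hn, h⟩ := hg
  by_cases h1 : g ^ n = 1
  · exact Or.inl (tf g n hn h1)
  · rcases hc.tot _ h h1 with hp | hp
    · exact Or.inr (Or.inl ⟨n, hn, hp⟩)
    · refine Or.inr (Or.inr ⟨n, hn, ?_⟩)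
      rwa [inv_pow]

theorem Pos_conj (hc : Cone Y P) (x : X) {g : X} (hg : Pos P g) : Pos P (x * g * x⁻¹) := by
  obtain ⟨m, hm, hmP⟩ := hg
  refine ⟨m, hm, ?_⟩
  rw [conj_pow]
  exact hc.inv x _ hmP

end Cone

theorem iso_conj {S : Subgroup X} [S.Normal] {g : X} (hg : g ∈ iso S) (x : X) :
    x * g * x⁻¹ ∈ iso S := by
  obtain ⟨n, hn, h⟩ := hg
  refine ⟨n, hn, ?_⟩
  rw [conj_pow]
  exact (inferInstance : S.Normal).conj_mem _ h x

theorem iso_inv {S : Subgroup X} {g : X} (hg : g ∈ iso S) : g⁻¹ ∈ iso S := by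
  obtain ⟨n, hn, h⟩ := hg
  refine ⟨n, hn, ?_⟩
  rw [inv_pow]
  exact S.inv_mem h

theorem iso_one (S : Subgroup X) : (1 : X) ∈ iso S := ⟨1, one_pos, by simp⟩

theorem mem_iso {S : Subgroup X} {g : X} (hg : g ∈ S) : g ∈ iso S := ⟨1, one_pos, by simpa using hg⟩

theorem iso_mono {S T : Subgroup X} (h : S ≤ T) {g : X} (hg : g ∈ iso S) : g ∈ iso T := by
  obtain ⟨n, hn, h'⟩ := hg
  exact ⟨n, hn, h h'⟩

theorem iso_iso {S : Subgroup X} {g : X} {n : ℕ} (hn : 0 < n) (hg : g ^ n ∈ iso S) : g ∈ iso S := by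
  obtain ⟨m, hm, h⟩ := hg
  exact ⟨n * m, Nat.mul_pos hn hm, by rwa [pow_mul]⟩

/-- The isolator as a subgroup, given that it is closed under multiplication. -/
def isoSub (S : Subgroup X) (h : ∀ a ∈ iso S, ∀ b ∈ iso S, a * b ∈ iso S) : Subgroup X where
  carrier := iso S
  mul_mem' := fun {a b} ha hb => h a ha b hb
  one_mem' := iso_one S
  inv_mem' := fun {_} ha => iso_inv ha

theorem mem_isoSub {S : Subgroup X} {h : ∀ a ∈ iso S, ∀ b ∈ iso S, a * b ∈ iso S} {g : X} :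
    g ∈ isoSub S h ↔ g ∈ iso S := Iff.rfl

theorem isoSub_normal {S : Subgroup X} [S.Normal]
    (h : ∀ a ∈ iso S, ∀ b ∈ iso S, a * b ∈ iso S) : (isoSub S h).Normal :=
  ⟨fun _ hn g => iso_conj hn g⟩

end MP611b97
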