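import Pool.Agent.Work.MP_611b97_al.Engel

/-!
# Products of elements with a power in a normal subsemigroup of a nilpotent group
-/

set_option autoImplicit false

namespace MP611b97

variable {L : Type*} [Group L]

/-- The power of a product. -/
theorem pow_mul_form {p : L → Prop} (hp : ∀ x y, p x → p y → p (x * y)) {a b : L}
    (h : ∀ i : ℕ, p (a ^ i * b * (a ^ i)⁻¹)) (N : ℕ) :
    ∃ β, p β ∧ (a * b) ^ (N + 1) = β * a ^ (N + 1) := by
  induction N with
  | zero => exact ⟨_, h 1, by simp⟩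
  | succ N ih =>
    obtain ⟨β, hβ, e⟩ := ih
    refine ⟨β * (a ^ (N + 2) * b * (a ^ (N + 2))⁻¹), hp _ _ hβ (h _), ?_⟩
    rw [pow_succ, e]
    have e2 : a ^ (N + 1 + 1) = a ^ (N + 1) * a := pow_succ _ _
    rw [show N + 2 = N + 1 + 1 from rfl, e2]
    group

theorem Pos_set_mul_aux {R : Set L} (hR : ∀ a ∈ R, ∀ b ∈ R, a * b ∈ R) {a : L} (ha : a ∈ R) (n : ℕ) :
    a ^ (n + 1) ∈ R := by
  induction n with
  | zero => simpa using ha
  | succ n ih => rw [pow_succ]; exact hR _ ih _ ha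

theorem Pos_pow {R : Set L} (hR : ∀ a ∈ R, ∀ b ∈ R, a * b ∈ R) {a : L} (ha : a ∈ R) {n : ℕ}
    (hn : 0 < n) : a ^ n ∈ R := by
  obtain ⟨j, rfl⟩ : ∃ j, n = j + 1 := ⟨n - 1, by omega⟩
  exact Pos_set_mul_aux hR ha j

theorem Pos_mul_of_ucs {R : Set L} (hR : ∀ a ∈ R, ∀ b ∈ R, a * b ∈ R)
    (hRc : ∀ g : L, ∀ a ∈ R, g * a * g⁻¹ ∈ R) (n : ℕ) :
    ∀ K : Subgroup L, (∀ x ∈ K, ∀ y ∈ K, cm x y ∈ Subgroup.upperCentralSeries L n) →
      ∀ a ∈ K, ∀ b ∈ K, Pos R a → Pos R b → Pos R (a * b) := by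
  induction n with
  | zero =>
    intro K hK a ha b hb ⟨k, hk, hak⟩ ⟨l, hl, hbl⟩
    have hab : Commute a b := by
      rw [← cm_eq_one_iff]
      simpa using hK a ha b hb
    refine ⟨k * l, Nat.mul_pos hk hl, ?_⟩
    rw [hab.mul_pow, pow_mul, mul_comm k l, pow_mul]
    exact hR _ (Pos_pow hR hak hl) _ (Pos_pow hR hbl hk)
  | succ n ih =>
    intro K hK a ha b hb hpa hpb
    set Z := Subgroup.upperCentralSeries L (n + 1) with hZ
    set K₂ := Subgroup.zpowers b ⊔ Z with hK₂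
    have hbK₂ : b ∈ K₂ := (le_sup_left : Subgroup.zpowers b ≤ K₂) (Subgroup.mem_zpowers b)
    have hcomm : ∀ x ∈ K₂, ∀ y ∈ K₂, cm x y ∈ Subgroup.upperCentralSeries L n := by
      intro x hx y hy
      rw [cm_mem_iff]
      set q := QuotientGroup.mk' (Subgroup.upperCentralSeries L n) with hq
      have hcen : ∀ z ∈ Z, ∀ w : L, Commute (q z) (q w) := by
        intro z hz w
        rw [← cm_mem_iff]
        exact mem_ucs_succ.1 hz w
      have hb1 : ∀ y ∈ K₂, Commute (q b) (q y) := by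
        intro y hy
        have hle : K₂ ≤ (Subgroup.centralizer {q b}).comap q := by
          rw [hK₂]
          refine sup_le ?_ ?_
          · rw [Subgroup.zpowers_le, Subgroup.mem_comap, Subgroup.mem_centralizer_iff]
            intro h hh
            rw [Set.mem_singleton_iff] at hh
            rw [hh]
          · intro z hz
            rw [Subgroup.mem_comap, Subgroup.mem_centralizer_iff]
            intro h hh
            rw [Set.mem_singleton_iff] at hh
            rw [hh]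
            exact ((hcen z hz b).eq).symm
        have h2 := hle hy
        rw [Subgroup.mem_comap, Subgroup.mem_centralizer_iff] at h2
        exact h2 _ rfl
      have hle : K₂ ≤ (Subgroup.centralizer {q y}).comap q := by
        rw [hK₂]
        refine sup_le ?_ ?_
        · rw [Subgroup.zpowers_le, Subgroup.mem_comap, Subgroup.mem_centralizer_iff]
          intro h hh
          rw [Set.mem_singleton_iff] at hh
          rw [hh]
          exact (hb1 y hy).eq.symm
        · intro z hz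
          rw [Subgroup.mem_comap, Subgroup.mem_centralizer_iff]
          intro h hh
          rw [Set.mem_singleton_iff] at hh
          rw [hh]
          exact ((hcen z hz y).eq).symm
      have h2 := hle hx
      rw [Subgroup.mem_comap, Subgroup.mem_centralizer_iff] at h2
      exact (h2 _ rfl).symm
    have hmulp : ∀ x y, (x ∈ K₂ ∧ Pos R x) → (y ∈ K₂ ∧ Pos R y) → (x * y ∈ K₂ ∧ Pos R (x * y)) :=
      fun x y hx hy => ⟨K₂.mul_mem hx.1 hy.1, ih K₂ hcomm x hx.1 y hy.1 hx.2 hy.2⟩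
    have hconj : ∀ i : ℕ, (a ^ i * b * (a ^ i)⁻¹ ∈ K₂ ∧ Pos R (a ^ i * b * (a ^ i)⁻¹)) := by
      intro i
      constructor
      · have e : a ^ i * b * (a ^ i)⁻¹ = b * cm b (a ^ i)⁻¹ := by unfold cm; group
        rw [e]
        refine K₂.mul_mem hbK₂ ((le_sup_right : Z ≤ K₂) ?_)
        exact hK b hb _ (K.inv_mem (K.pow_mem ha i))
      · obtain ⟨l, hl, hbl⟩ := hpb
        refine ⟨l, hl, ?_⟩
        rw [conj_pow]
        exact hRc _ _ hbl
    obtain ⟨N, hN, haN⟩ := hpa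
    obtain ⟨j, rfl⟩ : ∃ j, N = j + 1 := ⟨N - 1, by omega⟩
    obtain ⟨β, ⟨hβK, ⟨M, hM, hβM⟩⟩, e⟩ := pow_mul_form hmulp hconj j
    obtain ⟨i, rfl⟩ : ∃ i, M = i + 1 := ⟨M - 1, by omega⟩
    set u := a ^ (j + 1) with hu
    obtain ⟨γ, hγ, e'⟩ := pow_mul_form (p := fun x => x ∈ R) (fun x y hx hy => hR x hx y hy)
      (a := β) (b := u) (fun i => hRc (β ^ i) u haN) i
    refine ⟨(j + 1) * (i + 1), Nat.mul_pos (by omega) (by omega), ?_⟩
    rw [pow_mul, e, e']
    exact hR _ hγ _ hβM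

theorem Pos_mul_of_nilpotent {R : Set L} (hL : Group.IsNilpotent L)
    (hR : ∀ a ∈ R, ∀ b ∈ R, a * b ∈ R)
    (hRc : ∀ g : L, ∀ a ∈ R, g * a * g⁻¹ ∈ R) {a b : L} (ha : Pos R a) (hb : Pos R b) :
    Pos R (a * b) := by
  obtain ⟨c, hc⟩ := hL.nilpotent'
  refine Pos_mul_of_ucs hR hRc c ⊤ ?_ a trivial b trivial ha hb
  intro x _ y _
  rw [hc]
  trivial

end MP611b97
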