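import Pool.Agent.Work.MP_611b97_al.SD

/-!
# Finite soluble groups as quotients of bi-orderable groups with metabelian kernel
-/

set_option autoImplicit false

namespace MP611b97

/-- `F` is a quotient of a bi-orderable group `L`, through a left-orderable group `B`, where both
maps have commutative kernels. -/
def Cov (F : Type) [Group F] : Prop :=
  ∃ (L B : Type) (_ : Group L) (_ : Group B) (α : L →* B) (β : B →* F),
    Function.Surjective α ∧ Function.Surjective β ∧
    (∀ a b, α a = 1 → α b = 1 → a * b = b * a) ∧ (∀ a b, β a = 1 → β b = 1 → a * b = b * a) ∧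
    BiOrd L ∧ LeftOrd B

theorem Cov.of_subsingleton (F : Type) [Group F] [Subsingleton F] : Cov F := by
  refine ⟨F, F, inferInstance, inferInstance, MonoidHom.id F, MonoidHom.id F,
    Function.surjective_id, Function.surjective_id, fun a b _ _ => Subsingleton.elim _ _,
    fun a b _ _ => Subsingleton.elim _ _, ?_, ?_⟩
  · exact ⟨∅, fun a ha => absurd ha (Set.notMem_empty a), Set.notMem_empty 1,
      fun g hg => absurd (Subsingleton.elim _ _) hg, fun g a ha => absurd ha (Set.notMem_empty a)⟩
  · exact ⟨∅, fun a ha => absurd ha (Set.notMem_empty a), Set.notMem_empty 1,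
      fun g hg => absurd (Subsingleton.elim _ _) hg⟩

/-- A free abelian group onto `M`. -/
noncomputable def wmap (M : Type) [AddCommGroup M] : (M →₀ ℤ) →+ M :=
  Finsupp.liftAddHom (fun v => (zmultiplesHom M) v)

theorem wmap_surjective (M : Type) [AddCommGroup M] : Function.Surjective (wmap M) := by
  intro v
  refine ⟨Finsupp.single v 1, ?_⟩
  simp [wmap]

theorem Cov.step {F₀ : Type} [Group F₀] (h : Cov F₀) (M : Type) [AddCommGroup M] :
    Cov (SD (MonoidHom.id F₀) M) := by
  obtain ⟨L, B, _, _, α, β, hα, hβ, hα', hβ', hL, hB⟩ := h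
  set W := M →₀ ℤ with hW
  have hWo : AddOrd W := addOrd_int.finsupp M
  refine ⟨SD α W, SD β W, inferInstance, inferInstance,
    mapSD α β (AddMonoidHom.id W) (fun a => rfl),
    mapSD β (MonoidHom.id F₀) (wmap M) (fun a => rfl), ?_, ?_, ?_, ?_, ?_, ?_⟩
  · exact mapSD_surjective hα hβ Function.surjective_id
  · exact mapSD_surjective hβ Function.surjective_id (wmap_surjective M)
  · intro p q hp hq
    exact mapSD_ker (fun a ha => ha) hα' p q hp hq
  · intro p q hp hq
    exact mapSD_ker (fun a ha => ha) hβ' p q hp hq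
  · exact SD.biOrd hL hB hWo
  · exact SD.leftOrd hB hWo

theorem Cov.of_injective {F F₁ : Type} [Group F] [Group F₁] (ι : F →* F₁)
    (hι : Function.Injective ι) (h : Cov F₁) : Cov F := by
  obtain ⟨L, B, _, _, α, β, hα, hβ, hα', hβ', hL, hB⟩ := h
  set B' : Subgroup B := ι.range.comap β with hB'
  set L' : Subgroup L := B'.comap α with hL'
  set α' : L' →* B' := (α.comp L'.subtype).codRestrict B' (fun l => l.2) with hα1
  set β₁ : B' →* ι.range := (β.comp B'.subtype).codRestrict ι.range (fun b => b.2) with hβ1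
  set e : F ≃* ι.range := MonoidHom.ofInjective hι with he
  refine ⟨L', B', inferInstance, inferInstance, α', e.symm.toMonoidHom.comp β₁, ?_, ?_, ?_, ?_,
    ?_, ?_⟩
  · rintro ⟨b, hb⟩
    obtain ⟨l, rfl⟩ := hα b
    exact ⟨⟨l, hb⟩, rfl⟩
  · apply e.symm.surjective.comp
    rintro ⟨f, hf⟩
    obtain ⟨b, rfl⟩ := hβ f
    exact ⟨⟨b, hf⟩, rfl⟩
  · intro a b ha hb
    apply Subtype.ext
    exact hα' _ _ (congrArg Subtype.val ha) (congrArg Subtype.val hb)
  · have key : ∀ b : B', (e.symm.toMonoidHom.comp β₁) b = 1 → β (b : B) = 1 := by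
      intro b hb
      have h1 : e.symm (β₁ b) = 1 := hb
      have h2 : β₁ b = 1 := by
        apply e.symm.injective
        rw [h1, map_one]
      exact congrArg Subtype.val h2
    intro a b ha hb
    apply Subtype.ext
    exact hβ' _ _ (key a ha) (key b hb)
  · exact hL.of_injective L'.subtype L'.subtype_injective
  · exact hB.of_injective B'.subtype B'.subtype_injective

/-- The universal embedding of an extension with commutative kernel. -/
theorem kk {F F₀ : Type} [Group F] [Group F₀] [Finite F₀] (q : F →* F₀)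
    (hq : Function.Surjective q) (hV : ∀ a b : F, q a = 1 → q b = 1 → a * b = b * a) :
    ∃ (M : Type) (_ : AddCommGroup M) (ι : F →* SD (MonoidHom.id F₀) M),
      Function.Injective ι := by
  classical
  letI : CommGroup q.ker :=
    { (inferInstance : Group q.ker) with
      mul_comm := fun a b => Subtype.ext (hV a b a.2 b.2) }
  obtain ⟨σ, hσ⟩ := hq.hasRightInverse
  have hmem : ∀ (f : F) (s : F₀), (σ s)⁻¹ * f * σ ((q f)⁻¹ * s) ∈ q.ker := by
    intro f s
    rw [MonoidHom.mem_ker, map_mul, map_mul, map_inv, hσ, hσ]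
    group
  set φ : F → (F₀ →₀ Additive q.ker) := fun f =>
    Finsupp.equivFunOnFinite.symm (fun s => Additive.ofMul ⟨_, hmem f s⟩) with hφ
  have hφa : ∀ f s, φ f s = Additive.ofMul ⟨_, hmem f s⟩ := fun f s => rfl
  have hone : (SD.mk (φ 1) (q 1) : SD (MonoidHom.id F₀) (Additive q.ker)) = 1 := by
    apply SD.ext'
    · rw [SD.mk_fst, SD.one_fst]
      refine Finsupp.ext fun s => ?_
      change φ 1 s = 0
      rw [hφa]
      apply congrArg Additive.ofMul (a₂ := (1 : q.ker))
      apply Subtype.ext
      simp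
    · exact map_one q
  have hmul : ∀ f g : F, (SD.mk (φ (f * g)) (q (f * g)) : SD (MonoidHom.id F₀) (Additive q.ker)) =
      SD.mk (φ f) (q f) * SD.mk (φ g) (q g) := by
    intro f g
    apply SD.ext'
    · rw [SD.mul_fst, SD.mk_fst]
      refine Finsupp.ext fun s => ?_
      change φ (f * g) s = φ f s + (tr ((MonoidHom.id F₀) (q f)) (φ g)) s
      rw [tr_apply, hφa, hφa, hφa, ← ofMul_mul]
      apply congrArg Additive.ofMul
      apply Subtype.ext
      change (σ s)⁻¹ * (f * g) * σ ((q (f * g))⁻¹ * s) = ((σ s)⁻¹ * f * σ ((q f)⁻¹ * s)) *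
        ((σ ((q f)⁻¹ * s))⁻¹ * g * σ ((q g)⁻¹ * ((q f)⁻¹ * s)))
      have e : (q (f * g))⁻¹ * s = (q g)⁻¹ * ((q f)⁻¹ * s) := by
        rw [map_mul]; group
      rw [e]
      group
    · exact map_mul q _ _
  refine ⟨Additive q.ker, inferInstance,
    { toFun := fun f => SD.mk (φ f) (q f), map_one' := hone, map_mul' := hmul }, ?_⟩
  rw [injective_iff_map_eq_one]
  intro f hf
  have h1 : q f = 1 := congrArg Prod.snd hf
  have h2 : φ f = 0 := congrArg Prod.fst hf
  have h3 : φ f 1 = 0 := by rw [h2]; rfl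
  rw [hφa] at h3
  have h4 : (⟨_, hmem f 1⟩ : q.ker) = 1 := h3
  have h5 : (σ 1)⁻¹ * f * σ ((q f)⁻¹ * 1) = 1 := congrArg Subtype.val h4
  rw [h1, inv_one, one_mul] at h5
  have h6 : f = σ 1 * ((σ 1)⁻¹ * f * σ 1) * (σ 1)⁻¹ := by group
  rw [h6, h5]
  group

theorem cov_of_derivedSeries (n : ℕ) : ∀ (F : Type) [Group F] [Finite F],
    derivedSeries F n = ⊥ → Cov F := by
  induction n with
  | zero =>
    intro F _ _ h
    rw [derivedSeries_zero] at h
    have : Subsingleton F := by
      constructor
      intro a b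
      have ha : a ∈ (⊤ : Subgroup F) := trivial
      have hb : b ∈ (⊤ : Subgroup F) := trivial
      rw [h, Subgroup.mem_bot] at ha hb
      rw [ha, hb]
    exact Cov.of_subsingleton F
  | succ n ih =>
    intro F _ _ h
    have hn : (derivedSeries F n).Normal := derivedSeries_normal F n
    set V := derivedSeries F n with hV
    rw [derivedSeries_succ, ← hV] at h
    have hcomm : ∀ a ∈ V, ∀ b ∈ V, a * b = b * a := by
      intro a ha b hb
      have h1 := Subgroup.commutator_mem_commutator ha hb
      rw [h, Subgroup.mem_bot, commutatorElement_eq_one_iff_mul_comm] at h1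
      exact h1
    have h0 : derivedSeries (F ⧸ V) n = ⊥ := by
      rw [← map_derivedSeries_eq (QuotientGroup.mk'_surjective V) n, ← hV, eq_bot_iff]
      rintro _ ⟨v, hv, rfl⟩
      rw [Subgroup.mem_bot]
      exact (QuotientGroup.eq_one_iff v).2 hv
    have hF0 : Cov (F ⧸ V) := ih (F ⧸ V) h0
    obtain ⟨M, _, ι, hι⟩ := kk (QuotientGroup.mk' V) (QuotientGroup.mk'_surjective V)
      (fun a b ha hb => hcomm a ((QuotientGroup.eq_one_iff a).1 ha) b
        ((QuotientGroup.eq_one_iff b).1 hb))
    exact (hF0.step M).of_injective ι hι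

end MP611b97
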