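import Pool.Agent.Work.MP_611b97_al.Crit
import Mathlib.GroupTheory.Transfer

/-!
# The doubling trick

If for any two conjugate elements of the periodic group `Q` the subgroup generated by them has the
property that torsion elements of its central extensions by torsion-free groups are closed under
multiplication, then `Q` has this property.
-/

set_option autoImplicit false

namespace MP611b97

universe u

/-- `TorsClosed` for a subgroup, stated inside the big group. -/
def TorsRel {Q : Type u} [Group Q] (K : Subgroup Q) : Prop :=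
  ∀ (Γ : Type u) [Group Γ] (π : Γ →* Q), (∀ g, π g ∈ K) → π.ker ≤ Subgroup.center Γ →
    (∀ a ∈ π.ker, ∀ n : ℕ, 0 < n → a ^ n = 1 → a = 1) →
    ∀ x y : Γ, IsOfFinOrder x → IsOfFinOrder y → IsOfFinOrder (x * y)

theorem torsRel_iff {Q : Type u} [Group Q] (K : Subgroup Q) : TorsRel K ↔ TorsClosed K := by
  constructor
  · intro h Γ _ π hc ht
    have hk : (K.subtype.comp π).ker = π.ker := by
      ext g
      simp [MonoidHom.mem_ker]
    exact h Γ (K.subtype.comp π) (fun g => (π g).2) (hk ▸ hc) (hk ▸ ht)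
  · intro h Γ _ π hK hc ht
    have hk : (π.codRestrict K hK).ker = π.ker := by
      ext g
      simp [MonoidHom.mem_ker]
    exact h Γ (π.codRestrict K hK) (hk.symm ▸ hc) (hk.symm ▸ ht)

theorem torsRel_top_iff {Q : Type u} [Group Q] : TorsRel (⊤ : Subgroup Q) ↔ TorsClosed Q :=
  ⟨fun h Γ _ π hc ht => h Γ π (fun _ => Subgroup.mem_top _) hc ht,
    fun h Γ _ π _ hc ht => h Γ π hc ht⟩

theorem torsRel_mono {Q : Type u} [Group Q] {K L : Subgroup Q} (h : K ≤ L) (hL : TorsRel L) :
    TorsRel K := fun Γ _ π hK hc ht => hL Γ π (fun g => h (hK g)) hc ht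

/-- Schur: finite groups. -/
theorem torsRel_of_finite {Q : Type u} [Group Q] {K : Subgroup Q} (hf : (K : Set Q).Finite) :
    TorsRel K := by
  intro Γ _ π hK hc _ x y hx hy
  have hfin : Finite π.range := by
    have : (π.range : Set Q).Finite := hf.subset (by rintro _ ⟨g, rfl⟩; exact hK g)
    exact this.to_subtype
  have h1 : π.ker.FiniteIndex := Subgroup.finiteIndex_ker π
  have h2 : (Subgroup.center Γ).FiniteIndex := Subgroup.finiteIndex_of_le hc
  set n := (Subgroup.center Γ).index with hn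
  have hn0 : n ≠ 0 := h2.index_ne_zero
  have hpow : (x * y) ^ n = x ^ n * y ^ n := by
    have h := congrArg (Subtype.val) ((MonoidHom.transferCenterPow Γ).map_mul x y)
    rw [Subgroup.coe_mul, MonoidHom.transferCenterPow_apply, MonoidHom.transferCenterPow_apply,
      MonoidHom.transferCenterPow_apply] at h
    exact h
  have hcx : x ^ n ∈ Subgroup.center Γ := by
    have := (MonoidHom.transferCenterPow Γ x).2
    rwa [MonoidHom.transferCenterPow_apply] at this
  have hcomm : Commute (x ^ n) (y ^ n) := ((Subgroup.mem_center_iff.1 hcx) (y ^ n)).symm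
  have h3 : IsOfFinOrder ((x * y) ^ n) := by
    rw [hpow]
    exact hcomm.isOfFinOrder_mul (hx.pow) (hy.pow)
  exact (isOfFinOrder_pow.1 h3).resolve_right hn0

theorem doubling_pow {Γ : Type u} [Group Γ] (x y : Γ) (n : ℕ) :
    (x * y) ^ (2 * n) * (y ^ (2 * n))⁻¹ =
      ((x * y) ^ n * (y ^ n)⁻¹) * (y ^ n * ((x * y) ^ n * (y ^ n)⁻¹) * (y ^ n)⁻¹) := by
  rw [two_mul, pow_add, pow_add]
  group

/-- The doubling trick. -/
theorem torsRel_of_conj {Q : Type u} [Group Q] (hper : ∀ q : Q, IsOfFinOrder q) {K : Subgroup Q}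
    (h : ∀ g ∈ K, ∀ t ∈ K, TorsRel (Subgroup.closure {g, t * g * t⁻¹})) : TorsRel K := by
  intro Γ _ π hK hc ht x y hx hy
  -- conjugate pairs
  have pair : ∀ P t : Γ, IsOfFinOrder P → IsOfFinOrder (P * (t * P * t⁻¹)) := by
    intro P t hP
    set C := Subgroup.closure {π P, π t * π P * (π t)⁻¹} with hC
    set L := C.comap π with hL
    have hPL : P ∈ L := by
      rw [hL, Subgroup.mem_comap]
      exact Subgroup.subset_closure (by simp)
    have hQL : t * P * t⁻¹ ∈ L := by
      rw [hL, Subgroup.mem_comap]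
      have : π (t * P * t⁻¹) = π t * π P * (π t)⁻¹ := by simp
      rw [this]
      exact Subgroup.subset_closure (by simp)
    have hcj : IsOfFinOrder (t * P * t⁻¹) := by
      rw [isOfFinOrder_iff_pow_eq_one] at hP ⊢
      obtain ⟨n, hn, e⟩ := hP
      exact ⟨n, hn, by rw [conj_pow, e]; group⟩
    have hT := h (π P) (hK P) (π t) (hK t) L (π.comp L.subtype) (fun g => g.2) ?_ ?_
      ⟨P, hPL⟩ ⟨t * P * t⁻¹, hQL⟩ ?_ ?_
    · have := (Submonoid.isOfFinOrder_coe (H := L.toSubmonoid)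
        (x := (⟨P, hPL⟩ * ⟨t * P * t⁻¹, hQL⟩ : L))).2 hT
      exact this
    · intro g hg
      rw [Subgroup.mem_center_iff]
      intro r
      have h1 : (g : Γ) ∈ π.ker := hg
      have h2 := Subgroup.mem_center_iff.1 (hc h1) (r : Γ)
      exact Subtype.ext h2
    · intro a ha n hn e
      have h1 : (a : Γ) ∈ π.ker := ha
      have h2 := ht a h1 n hn (by rw [← Subgroup.coe_pow, e]; rfl)
      exact Subtype.ext h2
    · exact (Submonoid.isOfFinOrder_coe (H := L.toSubmonoid) (x := (⟨P, hPL⟩ : L))).1 hP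
    · exact (Submonoid.isOfFinOrder_coe (H := L.toSubmonoid) (x := (⟨t * P * t⁻¹, hQL⟩ : L))).1 hcj
  -- the elements P_{2^i}
  have hP : ∀ i : ℕ, IsOfFinOrder ((x * y) ^ (2 ^ i) * (y ^ (2 ^ i))⁻¹) := by
    intro i
    induction i with
    | zero => simpa using hx
    | succ i ih =>
      rw [pow_succ', doubling_pow]
      exact pair _ _ ih
  -- a common multiple
  obtain ⟨a, ha, hya⟩ := isOfFinOrder_iff_pow_eq_one.1 hy
  obtain ⟨b, hb, hxyb⟩ := isOfFinOrder_iff_pow_eq_one.1 (hper (π (x * y)))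
  set M := a * b with hM
  have hM0 : 0 < M := Nat.mul_pos ha hb
  have hyM : y ^ M = 1 := by rw [hM, pow_mul, hya, one_pow]
  have hzM : (x * y) ^ M ∈ π.ker := by
    rw [MonoidHom.mem_ker, map_pow, hM, mul_comm, pow_mul, hxyb, one_pow]
  -- pigeonhole
  obtain ⟨s, r, hsr, hmod⟩ : ∃ s r : ℕ, s < r ∧ 2 ^ s ≡ 2 ^ r [MOD M] := by
    have : NeZero M := ⟨hM0.ne'⟩
    obtain ⟨s, r, hne, e⟩ := Finite.exists_ne_map_eq_of_infinite (fun i : ℕ => ((2 ^ i : ℕ) : ZMod M))
    have e' : 2 ^ s ≡ 2 ^ r [MOD M] := (ZMod.natCast_eq_natCast_iff _ _ _).1 e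
    rcases lt_or_gt_of_ne hne with hl | hl
    · exact ⟨s, r, hl, e'⟩
    · exact ⟨r, s, hl, e'.symm⟩
  have hlt : 2 ^ s < 2 ^ r := Nat.pow_lt_pow_right (by norm_num) hsr
  obtain ⟨k, hk⟩ := (Nat.modEq_iff_dvd' hlt.le).1 hmod
  have hk0 : 0 < k := by
    rcases Nat.eq_zero_or_pos k with h0 | h0
    · rw [h0, mul_zero] at hk; omega
    · exact h0
  have hr : 2 ^ r = M * k + 2 ^ s := by omega
  set c := (x * y) ^ (M * k) with hcdef
  have hcker : c ∈ π.ker := by
    rw [hcdef, pow_mul]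
    exact Subgroup.pow_mem _ hzM k
  have hccen : ∀ g : Γ, g * c = c * g := Subgroup.mem_center_iff.1 (hc hcker)
  have key : (x * y) ^ (2 ^ r) * (y ^ (2 ^ r))⁻¹ = c * ((x * y) ^ (2 ^ s) * (y ^ (2 ^ s))⁻¹) := by
    rw [hr, pow_add, pow_add, pow_mul y, hyM, one_pow, one_mul, ← mul_assoc]
  have h1 := hP r
  have h2 := hP s
  rw [key] at h1
  have h3 : IsOfFinOrder c := by
    have e : c = (c * ((x * y) ^ (2 ^ s) * (y ^ (2 ^ s))⁻¹)) *
        ((x * y) ^ (2 ^ s) * (y ^ (2 ^ s))⁻¹)⁻¹ := by group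
    rw [e]
    refine Commute.isOfFinOrder_mul ?_ h1 h2.inv
    apply Commute.inv_right
    have h4 := hccen ((x * y) ^ (2 ^ s) * (y ^ (2 ^ s))⁻¹)
    set R := (x * y) ^ (2 ^ s) * (y ^ (2 ^ s))⁻¹ with hR
    change c * R * R = R * (c * R)
    rw [← mul_assoc R c R, h4]
  exact (isOfFinOrder_pow.1 h3).resolve_right (Nat.mul_pos hM0 hk0).ne'

/-- The iterated form: along every descending chain of subgroups generated by conjugate pairs one
reaches a subgroup with the property. -/
theorem torsClosed_of_chains {Q : Type u} [Group Q] (hper : ∀ q : Q, IsOfFinOrder q)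
    (h : ∀ g t : ℕ → Q,
      (∀ i, g (i + 1) ∈ Subgroup.closure {g i, t i * g i * (t i)⁻¹}) →
      (∀ i, t (i + 1) ∈ Subgroup.closure {g i, t i * g i * (t i)⁻¹}) →
      ∃ i, TorsRel (Subgroup.closure {g i, t i * g i * (t i)⁻¹})) : TorsClosed Q := by
  rw [← torsRel_top_iff]
  by_contra hbad
  set C : Q × Q → Subgroup Q := fun p => Subgroup.closure {p.1, p.2 * p.1 * p.2⁻¹} with hC
  have step : ∀ K : Subgroup Q, ¬ TorsRel K → ∃ p : Q × Q, p.1 ∈ K ∧ p.2 ∈ K ∧ ¬ TorsRel (C p) := by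
    intro K hK
    by_contra hno
    push Not at hno
    exact hK (torsRel_of_conj hper fun g hg t ht => hno (g, t) hg ht)
  choose! f hf using step
  obtain ⟨hf1, hf2, hf3⟩ := hf ⊤ hbad
  set p : ℕ → Q × Q := fun n => Nat.rec (f ⊤) (fun _ q => f (C q)) n with hp
  have hp0 : ∀ n, ¬ TorsRel (C (p n)) := by
    intro n
    induction n with
    | zero => exact hf3
    | succ n ih => exact (hf (C (p n)) ih).2.2
  obtain ⟨i, hi⟩ := h (fun n => (p n).1) (fun n => (p n).2)
    (fun i => (hf (C (p i)) (hp0 i)).1) (fun i => (hf (C (p i)) (hp0 i)).2.1)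
  exact hp0 i hi

end MP611b97
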