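import Pool.Agent.Work.MP_611b97_al.Basic

/-!
# Roots in torsion-free groups that are Engel modulo an ordered normal subgroup
-/

set_option autoImplicit false

namespace MP611b97

variable {L : Type*} [Group L]

/-- Root property modulo `A`. -/
def Rt (A : Subgroup L) : Prop :=
  ∀ x g : L, ∀ k : ℕ, 0 < k → cm x (g ^ k) ∈ A → cm x g ∈ A

/-- Root property modulo `A` for elements of `Y`. -/
def RtY (Y A : Subgroup L) : Prop :=
  ∀ x g : L, x ∈ Y → ∀ k : ℕ, 0 < k → cm x (g ^ k) ∈ A → cm x g ∈ A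

/-- Isolated. -/
def Isol (A : Subgroup L) : Prop := ∀ g : L, ∀ n : ℕ, 0 < n → g ^ n ∈ A → g ∈ A

variable {Y : Subgroup L} {P : Set L}

theorem Rt_of_RtY {A : Subgroup L} [A.Normal] (hiso : Isol A)
    (heng : ∀ x g : L, ∃ n : ℕ, (fun z : L => z⁻¹ * g⁻¹ * z * g)^[n] x ∈ Y)
    (h : RtY Y A) : Rt A := by
  intro x g k hk hxk
  obtain ⟨n, hn⟩ := heng x g
  induction n generalizing x with
  | zero => exact h x g (by simpa using hn) k hk hxk
  | succ n ih =>
    rw [Function.iterate_succ_apply] at hn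
    have hc : cm (cm x g) (g ^ k) ∈ A := by
      rw [cm_mem_iff, map_pow] at *
      rw [cm_map]
      set x' := QuotientGroup.mk' A x
      set g' := QuotientGroup.mk' A g
      have h1 : Commute g' (g' ^ k) := (Commute.refl g').pow_right k
      unfold cm
      exact (((hxk.inv_left).mul_left h1.inv_left).mul_left hxk).mul_left h1
    have h2 := ih (cm x g) hc hn
    have h3 := cm_pow_mod A h2 k
    have h4 : (cm x g) ^ k ∈ A := by
      have := A.mul_mem hxk h3
      rwa [mul_inv_cancel_left] at this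
    exact hiso _ k hk h4

theorem cm_mem_of_mem {A : Subgroup L} [hA : A.Normal] {x : L} (hx : x ∈ A) (g : L) :
    cm x g ∈ A := by
  have h1 : g⁻¹ * x * g ∈ A := by
    simpa using hA.conj_mem x hx g⁻¹
  have : cm x g = x⁻¹ * (g⁻¹ * x * g) := by unfold cm; group
  rw [this]
  exact A.mul_mem (A.inv_mem hx) h1

theorem RtY_step {A B : Subgroup L} [Y.Normal] [A.Normal] [B.Normal] (hBA : B ≤ A)
    (hcent : ∀ a ∈ A, ∀ w, cm a w ∈ B) (hiso : Isol A) (h : RtY Y B) : RtY Y A := by
  intro x g hxY k hk hz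
  have hdY : cm x g ∈ Y := cm_mem_of_mem hxY g
  have key : cm (cm x g) (g ^ k) = (cm (cm x (g ^ k)) (cm x g))⁻¹ * cm (cm x (g ^ k)) g := by
    have e1 : g * g ^ k = g ^ k * g := by rw [← pow_succ', pow_succ]
    have e2 : g⁻¹ * (g ^ k)⁻¹ = (g ^ k)⁻¹ * g⁻¹ := by
      rw [← mul_inv_rev, ← mul_inv_rev, e1]
    unfold cm
    generalize g ^ k = G at *
    have e3 : g * G * g⁻¹ = G := by rw [e1]; group
    have e4 : G⁻¹ * g * G = g := by
      rw [mul_assoc, e1, inv_mul_cancel_left]
    have e5 : G⁻¹ * g⁻¹ * G = g⁻¹ := by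
      have := congrArg (·⁻¹) e4
      simpa [mul_assoc] using this
    calc (x⁻¹ * g⁻¹ * x * g)⁻¹ * G⁻¹ * (x⁻¹ * g⁻¹ * x * g) * G
        = g⁻¹ * x⁻¹ * g * x * (G⁻¹ * x⁻¹ * G) * (G⁻¹ * g⁻¹ * G) * (G⁻¹ * x * G) *
          (G⁻¹ * g * G) := by group
      _ = g⁻¹ * x⁻¹ * g * x * (G⁻¹ * x⁻¹ * G) * g⁻¹ * (G⁻¹ * x * G) * g := by rw [e5, e4]
      _ = _ := by group
  have hd : cm (cm x g) (g ^ k) ∈ B := by
    rw [key]
    exact B.mul_mem (B.inv_mem (hcent _ hz _)) (hcent _ hz _)
  have h2 := h _ g hdY k hk hd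
  have h3 := cm_pow_mod B h2 k
  have h4 : (cm x g) ^ k ∈ A := by
    have := A.mul_mem hz (hBA h3)
    rwa [mul_inv_cancel_left] at this
  exact hiso _ k hk h4

theorem mem_ucs_succ {n : ℕ} {x : L} :
    x ∈ Subgroup.upperCentralSeries L (n + 1) ↔
      ∀ y : L, cm x y ∈ Subgroup.upperCentralSeries L n := by
  rw [Subgroup.mem_upperCentralSeries_succ_iff]
  constructor
  · intro h y
    have := h y
    rw [commutatorElement_def] at this
    rw [cm_mem_iff]
    have h3 : QuotientGroup.mk' (Subgroup.upperCentralSeries L n) (x * y * x⁻¹ * y⁻¹) = 1 :=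
      (QuotientGroup.eq_one_iff _).2 this
    rw [map_mul, map_mul, map_mul, map_inv, map_inv, mul_inv_eq_one, mul_inv_eq_iff_eq_mul] at h3
    exact h3
  · intro h y
    have h2 := (cm_mem_iff (Subgroup.upperCentralSeries L n) x y).1 (h y)
    rw [commutatorElement_def]
    refine (QuotientGroup.eq_one_iff _).1 ?_
    change QuotientGroup.mk' (Subgroup.upperCentralSeries L n) (x * y * x⁻¹ * y⁻¹) = 1
    rw [map_mul, map_mul, map_mul, map_inv, map_inv, h2.eq]
    group

theorem ucs_root (tf : TF L) (hc : Cone Y P) [Y.Normal]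
    (heng : ∀ x g : L, ∃ n : ℕ, (fun z : L => z⁻¹ * g⁻¹ * z * g)^[n] x ∈ Y) (j : ℕ) :
    Isol (Subgroup.upperCentralSeries L j) ∧ RtY Y (Subgroup.upperCentralSeries L j) ∧
      Rt (Subgroup.upperCentralSeries L j) := by
  induction j with
  | zero =>
    have h1 : Isol (Subgroup.upperCentralSeries L 0) := by
      intro g n hn hg
      rw [Subgroup.upperCentralSeries_zero, Subgroup.mem_bot] at *
      exact tf g n hn hg
    have h2 : RtY Y (Subgroup.upperCentralSeries L 0) := by
      intro x g hx k hk hz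
      rw [Subgroup.upperCentralSeries_zero, Subgroup.mem_bot] at *
      exact hc.root hx hk hz
    exact ⟨h1, h2, Rt_of_RtY h1 heng h2⟩
  | succ j ih =>
    obtain ⟨i1, i2, i3⟩ := ih
    have h1 : Isol (Subgroup.upperCentralSeries L (j + 1)) := by
      intro g n hn hg
      rw [mem_ucs_succ] at *
      intro y
      exact cm_symm _ (i3 y g n hn (cm_symm _ (hg y)))
    have h2 : RtY Y (Subgroup.upperCentralSeries L (j + 1)) :=
      RtY_step (Subgroup.upperCentralSeries_mono L (Nat.le_succ j))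
        (fun a ha w => mem_ucs_succ.1 ha w) h1 i2
    exact ⟨h1, h2, Rt_of_RtY h1 heng h2⟩

/-- If positive powers of the two generators lie in a nilpotent subgroup, the group is
nilpotent. -/
theorem nilpotent_of_powers (tf : TF L) (hc : Cone Y P) [Y.Normal]
    (heng : ∀ x g : L, ∃ n : ℕ, (fun z : L => z⁻¹ * g⁻¹ * z * g)^[n] x ∈ Y)
    {x y : L} (hxy : Subgroup.closure {x, y} = ⊤) {a b : ℕ} (ha : 0 < a) (hb : 0 < b)
    (K : Subgroup L) (hK : Group.IsNilpotent K) (hx : x ^ a ∈ K) (hy : y ^ b ∈ K) :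
    Group.IsNilpotent L := by
  have key : ∀ j : ℕ, ∀ w : K, w ∈ Subgroup.upperCentralSeries K j →
      (w : L) ∈ Subgroup.upperCentralSeries L j := by
    intro j
    induction j with
    | zero =>
      intro w hw
      rw [Subgroup.upperCentralSeries_zero, Subgroup.mem_bot] at *
      simp [hw]
    | succ j ih =>
      intro w hw
      have hr := (ucs_root tf hc heng j).2.2
      have hcm : ∀ v : K, cm (w : L) (v : L) ∈ Subgroup.upperCentralSeries L j := by
        intro v
        have h1 := ih _ (mem_ucs_succ.1 hw v)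
        simpa [cm] using h1
      have hwx := hr w x a ha (hcm ⟨_, hx⟩)
      have hwy := hr w y b hb (hcm ⟨_, hy⟩)
      rw [mem_ucs_succ]
      intro z
      have hz : z ∈ Subgroup.closure {x, y} := by rw [hxy]; trivial
      rw [cm_mem_iff]
      refine Subgroup.closure_induction (p := fun z _ => Commute
        (QuotientGroup.mk' (Subgroup.upperCentralSeries L j) (w : L))
        (QuotientGroup.mk' (Subgroup.upperCentralSeries L j) z)) ?_ ?_ ?_ ?_ hz
      · intro v hv
        rcases hv with rfl | hv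
        · exact (cm_mem_iff _ _ _).1 hwx
        · rw [Set.mem_singleton_iff] at hv
          subst hv
          exact (cm_mem_iff _ _ _).1 hwy
      · rw [map_one]; exact Commute.one_right _
      · intro a b _ _ ha hb
        rw [map_mul]; exact ha.mul_right hb
      · intro a _ ha
        rw [map_inv]; exact ha.inv_right
  obtain ⟨c, hc'⟩ := hK.nilpotent'
  refine ⟨c, ?_⟩
  have hi := (ucs_root tf hc heng c).1
  have hx' : x ∈ Subgroup.upperCentralSeries L c :=
    hi x a ha (key c ⟨_, hx⟩ (by rw [hc']; trivial))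
  have hy' : y ∈ Subgroup.upperCentralSeries L c :=
    hi y b hb (key c ⟨_, hy⟩ (by rw [hc']; trivial))
  rw [eq_top_iff, ← hxy, Subgroup.closure_le]
  intro v hv
  rcases hv with rfl | hv
  · exact hx'
  · rw [Set.mem_singleton_iff] at hv
    subst hv
    exact hy'

end MP611b97
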