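import Mathlib

/-!
# Archimedean ordered groups are commutative
-/

set_option autoImplicit false

namespace MP611b97

theorem zp_mono {A : Type*} [Group A] [LinearOrder A] [MulLeftStrictMono A]
    {x : A} (hx : 1 < x) : StrictMono (fun n : ℤ => x ^ n) := by
  refine strictMono_int_of_lt_succ fun n => ?_
  rw [zpow_add_one]
  exact lt_mul_of_one_lt_right' (x ^ n) hx

theorem near {A : Type*} [Group A] [LinearOrder A] [MulLeftStrictMono A] [MulRightStrictMono A]
    (harch : ∀ x y : A, 1 < x → ∃ n : ℕ, y < x ^ n) {x : A} (hx : 1 < x) (y : A) :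
    ∃ k : ℤ, x ^ k ≤ y ∧ y < x ^ (k + 1) := by
  have i1 : MulLeftMono A := mulLeftMono_of_mulLeftStrictMono A
  have i2 : MulRightMono A := mulRightMono_of_mulRightStrictMono A
  obtain ⟨n, hn⟩ := harch x y hx
  obtain ⟨m, hm⟩ := harch x y⁻¹ hx
  have hb : ∃ b : ℤ, ∀ z : ℤ, x ^ z ≤ y → z ≤ b := by
    refine ⟨n, fun z hz => ?_⟩
    have h1 : x ^ z < x ^ (n : ℤ) := lt_of_le_of_lt hz (by simpa using hn)
    exact le_of_lt ((zp_mono hx).lt_iff_lt.1 h1)
  have hi : ∃ z : ℤ, x ^ z ≤ y := by
    refine ⟨-(m : ℤ), ?_⟩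
    rw [zpow_neg, zpow_natCast]
    rw [inv_le']
    exact le_of_lt hm
  obtain ⟨k, hk, hk'⟩ := Int.exists_greatest_of_bdd hb hi
  refine ⟨k, hk, ?_⟩
  by_contra h
  have := hk' (k + 1) (not_lt.1 h)
  omega

theorem holder_aux {A : Type*} [Group A] [LinearOrder A] [MulLeftStrictMono A]
    [MulRightStrictMono A]
    (harch : ∀ x y : A, 1 < x → ∃ n : ℕ, y < x ^ n) (a b : A) : a * b = b * a := by
  have i1 : MulLeftMono A := mulLeftMono_of_mulLeftStrictMono A
  have i2 : MulRightMono A := mulRightMono_of_mulRightStrictMono A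
  by_cases h : ∃ δ : A, 1 < δ ∧ ∀ ε : A, 1 < ε → δ ≤ ε
  · obtain ⟨δ, hδ, hleast⟩ := h
    have key : ∀ y : A, ∃ k : ℤ, y = δ ^ k := by
      intro y
      obtain ⟨k, hk, hk'⟩ := near harch hδ y
      refine ⟨k, ?_⟩
      by_contra hne
      have h1 : δ ^ k < y := lt_of_le_of_ne hk (Ne.symm hne)
      have h2 : 1 < (δ ^ k)⁻¹ * y := by
        rw [lt_inv_mul_iff_mul_lt, mul_one]
        exact h1
      have h3 := hleast _ h2
      have h4 : (δ ^ k)⁻¹ * y < δ := by
        rw [inv_mul_lt_iff_lt_mul, ← zpow_add_one]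
        exact hk'
      exact absurd h3 (not_le.2 h4)
    obtain ⟨k, rfl⟩ := key a
    obtain ⟨l, rfl⟩ := key b
    rw [← zpow_add, ← zpow_add, add_comm]
  · push Not at h
    have key : ∀ a b : A, ¬ b * a < a * b := by
      intro a b hab
      have hε : 1 < (b * a)⁻¹ * (a * b) := by
        rw [lt_inv_mul_iff_mul_lt, mul_one]
        exact hab
      set ε := (b * a)⁻¹ * (a * b) with hεd
      -- a small element
      obtain ⟨δ, hδ, hδε⟩ : ∃ δ : A, 1 < δ ∧ δ * δ ≤ ε := by
        obtain ⟨η, hη, hηε⟩ := h ε hε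
        by_cases h2 : η * η ≤ ε
        · exact ⟨η, hη, h2⟩
        · rw [not_le] at h2
          refine ⟨η⁻¹ * ε, ?_, ?_⟩
          · rw [lt_inv_mul_iff_mul_lt, mul_one]
            exact hηε
          · have h3 : η⁻¹ * ε < η := by
              rw [inv_mul_lt_iff_lt_mul]
              exact h2
            calc η⁻¹ * ε * (η⁻¹ * ε) ≤ η * (η⁻¹ * ε) := le_of_lt (mul_lt_mul_left h3 _)
              _ = ε := by group
      obtain ⟨m, hm, hm'⟩ := near harch hδ a
      obtain ⟨n, hn, hn'⟩ := near harch hδ b
      have h1 : a * b < δ ^ (m + 1) * δ ^ (n + 1) := mul_lt_mul_of_lt_of_lt hm' hn'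
      have h2 : δ ^ n * δ ^ m ≤ b * a := mul_le_mul' hn hm
      have h3 : b * a * (δ * δ) ≤ b * a * ε := mul_le_mul_right hδε _
      have h4 : b * a * ε = a * b := by rw [hεd]; group
      have h5 : δ ^ n * δ ^ m * (δ * δ) ≤ b * a * (δ * δ) := mul_le_mul_left h2 _
      have h6 : δ ^ (m + 1) * δ ^ (n + 1) = δ ^ n * δ ^ m * (δ * δ) := by
        rw [← zpow_add, ← zpow_add, ← sq, ← zpow_natCast δ 2, ← zpow_add]
        congr 1
        push_cast
        ring
      rw [h6] at h1
      rw [h4] at h3
      exact absurd (lt_of_lt_of_le h1 (h5.trans h3)) (lt_irrefl _)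
    rcases lt_trichotomy (a * b) (b * a) with h1 | h1 | h1
    · exact absurd h1 (key b a)
    · exact h1
    · exact absurd h1 (key a b)

/-- The version with a cone. -/
theorem holder {A : Type*} [Group A] (R : Set A) (hmul : ∀ a ∈ R, ∀ b ∈ R, a * b ∈ R)
    (hone : (1 : A) ∉ R) (htot : ∀ a : A, a ≠ 1 → a ∈ R ∨ a⁻¹ ∈ R)
    (hconj : ∀ g : A, ∀ a ∈ R, g * a * g⁻¹ ∈ R)
    (harch : ∀ x ∈ R, ∀ z : A, ∃ n : ℕ, z⁻¹ * x ^ n ∈ R) (a b : A) : a * b = b * a := by
  classical
  letI : LinearOrder A :=
    { le := fun x y => x = y ∨ x⁻¹ * y ∈ R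
      lt := fun x y => x⁻¹ * y ∈ R
      le_refl := fun x => Or.inl rfl
      le_trans := by
        intro x y z hxy hyz
        rcases hxy with rfl | hxy
        · exact hyz
        · rcases hyz with rfl | hyz
          · exact Or.inr hxy
          · right
            have := hmul _ hxy _ hyz
            simpa [mul_assoc] using this
      lt_iff_le_not_ge := by
        intro x y
        constructor
        · intro h
          refine ⟨Or.inr h, ?_⟩
          rintro (rfl | h')
          · simp at h; exact hone h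
          · apply hone
            have := hmul _ h _ h'
            simpa [mul_assoc] using this
        · rintro ⟨rfl | h, h'⟩
          · exact absurd (Or.inl rfl) h'
          · exact h
      le_antisymm := by
        intro x y hxy hyx
        rcases hxy with rfl | hxy
        · rfl
        · rcases hyx with rfl | hyx
          · rfl
          · exfalso
            apply hone
            have := hmul _ hxy _ hyx
            simpa [mul_assoc] using this
      le_total := by
        intro x y
        by_cases h : x = y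
        · exact Or.inl (Or.inl h)
        · have : x⁻¹ * y ≠ 1 := by
            intro h1
            rw [inv_mul_eq_one] at h1
            exact h h1
          rcases htot _ this with h1 | h1
          · exact Or.inl (Or.inr h1)
          · right; right
            simpa using h1
      toDecidableLE := Classical.decRel _ }
  have hlt : ∀ x y : A, x < y ↔ x⁻¹ * y ∈ R := fun x y => Iff.rfl
  haveI : MulLeftStrictMono A := ⟨fun c x y h => by
    change (c * x) < (c * y)
    rw [hlt] at *
    simpa [mul_assoc] using h⟩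
  haveI : MulRightStrictMono A := ⟨fun c x y h => by
    change (x * c) < (y * c)
    rw [hlt] at *
    have := hconj c⁻¹ _ h
    simpa [mul_assoc] using this⟩
  refine holder_aux ?_ a b
  intro x y hx
  rw [hlt] at hx
  obtain ⟨n, hn⟩ := harch x (by simpa using hx) y
  exact ⟨n, hn⟩

end MP611b97
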