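import Pool.Agent.Work.MP_611b97_al.Step
import Pool.Agent.Work.MP_611b97_al.Holder

/-!
# Jumps, and the ascending induction
-/

set_option autoImplicit false

namespace MP611b97

variable {G : Type*} [Group G]

/-- Convex subgroups of `H`. -/
def Cvx (H : Subgroup G) (P : Set G) (C : Subgroup G) : Prop :=
  C ≤ H ∧ ∀ c ∈ C, ∀ x ∈ P, x⁻¹ * c ∈ P → x ∈ C

variable {H : Subgroup G} {P : Set G} {C D : Subgroup G}

theorem conj_mem_P (hc : Cone H P) (g : G) {a : G} : g⁻¹ * a * g ∈ P ↔ a ∈ P := by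
  constructor
  · intro h
    have := hc.inv g _ h
    simpa [mul_assoc] using this
  · exact hc.inv' g

theorem jump_normal (hc : Cone H P) [hH : H.Normal] [hCn : C.Normal] (hD : Cvx H P D)
    (hCD : C < D) (hmin : ∀ E, Cvx H P E → C < E → D ≤ E) : D.Normal := by
  have key : ∀ g : G, ∀ d ∈ D, g⁻¹ * d * g ∈ D := by
    intro g d hd
    set E : Subgroup G := D.comap (MulAut.conj g⁻¹).toMonoidHom with hE
    have hmem : ∀ y, y ∈ E ↔ g⁻¹ * y * g ∈ D := by
      intro y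
      rw [hE, Subgroup.mem_comap]
      simp
    have hEc : Cvx H P E := by
      constructor
      · intro y hy
        have h1 := hD.1 ((hmem y).1 hy)
        have h2 := hH.conj_mem _ h1 g
        simpa [mul_assoc] using h2
      · intro c hcE x hx hxc
        rw [hmem] at *
        refine hD.2 _ hcE _ (hc.inv' g hx) ?_
        have := hc.inv' g hxc
        have e : (g⁻¹ * x * g)⁻¹ * (g⁻¹ * c * g) = g⁻¹ * (x⁻¹ * c) * g := by group
        rw [e]; exact this
    have hCE : C < E := by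
      refine lt_of_le_of_ne ?_ ?_
      · intro y hy
        rw [hmem]
        apply hCD.le
        have := hCn.conj_mem _ hy g⁻¹
        simpa using this
      · intro e
        obtain ⟨d, hd, hdC⟩ := Set.exists_of_ssubset (show (C : Set G) ⊂ D from hCD)
        apply hdC
        have h1 : g * d * g⁻¹ ∈ E := by
          rw [hmem]
          simpa [mul_assoc] using hd
        rw [← e] at h1
        have := hCn.conj_mem _ h1 g⁻¹
        simpa [mul_assoc] using this
    exact (hmem d).1 (hmin E hEc hCE hd)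
  constructor
  intro n hn g
  have := key g⁻¹ n hn
  simpa using this

/-- The convex subgroup generated by a positive element. -/
def arch (hc : Cone H P) [hH : H.Normal] (x : G) (hx : x ∈ P) : Subgroup G where
  carrier := {z | z ∈ H ∧ ∃ n : ℕ, x ^ n * z ∈ P ∧ z⁻¹ * x ^ n ∈ P}
  one_mem' := ⟨H.one_mem, 1, by simpa using hx, by simpa using hx⟩
  mul_mem' := by
    rintro a b ⟨ha, n, ha1, ha2⟩ ⟨hb, m, hb1, hb2⟩
    refine ⟨H.mul_mem ha hb, n + m, ?_, ?_⟩
    · have h1 := hc.mul _ (hc.inv (x ^ m) _ ha1) _ hb1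
      have e : x ^ m * (x ^ n * a) * (x ^ m)⁻¹ * (x ^ m * b) = x ^ (n + m) * (a * b) := by
        rw [add_comm, pow_add]; group
      rwa [e] at h1
    · have h1 := hc.mul _ (hc.inv b⁻¹ _ ha2) _ hb2
      have e : b⁻¹ * (a⁻¹ * x ^ n) * b⁻¹⁻¹ * (b⁻¹ * x ^ m) = (a * b)⁻¹ * x ^ (n + m) := by
        rw [pow_add]; group
      rwa [e] at h1
  inv_mem' := by
    rintro a ⟨ha, n, ha1, ha2⟩
    refine ⟨H.inv_mem ha, n, ?_, ?_⟩
    · have h1 := hc.inv a _ ha2
      have e : a * (a⁻¹ * x ^ n) * a⁻¹ = x ^ n * a⁻¹ := by group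
      rwa [e] at h1
    · have h1 := hc.inv (x ^ n)⁻¹ _ ha1
      have e : (x ^ n)⁻¹ * (x ^ n * a) * (x ^ n)⁻¹⁻¹ = a⁻¹⁻¹ * x ^ n := by group
      rwa [e] at h1

theorem mem_arch (hc : Cone H P) [hH : H.Normal] {x : G} (hx : x ∈ P) (z : G) :
    z ∈ arch hc x hx ↔ z ∈ H ∧ ∃ n : ℕ, x ^ n * z ∈ P ∧ z⁻¹ * x ^ n ∈ P := Iff.rfl

theorem arch_self (hc : Cone H P) [hH : H.Normal] {x : G} (hx : x ∈ P) : x ∈ arch hc x hx := by
  rw [mem_arch]
  refine ⟨hc.sub hx, 2, ?_, ?_⟩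
  · rw [← pow_succ]; exact hc.pow hx (by norm_num)
  · rw [pow_two, inv_mul_cancel_left]; exact hx

theorem arch_cvx (hc : Cone H P) [hH : H.Normal] {x : G} (hx : x ∈ P) :
    Cvx H P (arch hc x hx) := by
  constructor
  · intro z hz
    exact hz.1
  · rintro c ⟨hcH, n, h1, h2⟩ y hy hyc
    refine ⟨hc.sub hy, n, ?_, ?_⟩
    · rcases Nat.eq_zero_or_pos n with rfl | hn
      · simpa using hy
      · exact hc.mul _ (hc.pow hx hn) _ hy
    · have := hc.mul _ hyc _ h2
      have e : y⁻¹ * c * (c⁻¹ * x ^ n) = y⁻¹ * x ^ n := by group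
      rwa [e] at this

theorem le_arch (hc : Cone H P) [hH : H.Normal] (hC : Cvx H P C) {x : G} (hx : x ∈ P)
    (hxC : x ∉ C) : C ≤ arch hc x hx := by
  have key : ∀ z ∈ C, z⁻¹ * x ∈ P := by
    intro z hz
    have hne : z⁻¹ * x ≠ 1 := by
      intro h
      rw [inv_mul_eq_one] at h
      rw [h] at hz
      exact hxC hz
    rcases hc.tot _ (H.mul_mem (H.inv_mem (hC.1 hz)) (hc.sub hx)) hne with h | h
    · exact h
    · exfalso
      apply hxC
      refine hC.2 z hz x hx ?_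
      simpa using h
  intro z hz
  refine ⟨hC.1 hz, 1, ?_, ?_⟩
  · rw [pow_one]
    have h1 := key z⁻¹ (C.inv_mem hz)
    have h2 := hc.inv x _ h1
    have e : x * (z⁻¹⁻¹ * x) * x⁻¹ = x * z := by group
    rwa [e] at h2
  · rw [pow_one]
    exact key z hz

theorem not_mem_mul (hC : Cvx H P C) {a b : G} (ha : a ∈ P) (hb : b ∈ P) (hbC : b ∉ C) :
    a * b ∉ C := by
  intro h
  have h1 : a ∈ C := hC.2 _ h a ha (by rwa [inv_mul_cancel_left])
  apply hbC
  have := C.mul_mem (C.inv_mem h1) h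
  rwa [inv_mul_cancel_left] at this

theorem jump_comm (hc : Cone H P) [hH : H.Normal] [hCn : C.Normal] (hC : Cvx H P C)
    (hD : Cvx H P D) (hCD : C < D) (hmin : ∀ E, Cvx H P E → C < E → D ≤ E)
    {a b : G} (ha : a ∈ D) (hb : b ∈ D) :
    QuotientGroup.mk' C a * QuotientGroup.mk' C b =
      QuotientGroup.mk' C b * QuotientGroup.mk' C a := by
  set N := C.subgroupOf D with hN
  have hNn : N.Normal := Subgroup.Normal.subgroupOf hCn D
  set f := QuotientGroup.mk' N with hf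
  have hfs : Function.Surjective f := QuotientGroup.mk'_surjective N
  have hf1 : ∀ d : D, f d = 1 ↔ (d : G) ∈ C := fun d => QuotientGroup.eq_one_iff d
  have hh := holder (A := D ⧸ N) {y | ∃ d : D, (d : G) ∈ P ∧ (d : G) ∉ C ∧ f d = y}
    (by
      rintro _ ⟨d, h1, h2, rfl⟩ _ ⟨e, h3, h4, rfl⟩
      exact ⟨d * e, hc.mul _ h1 _ h3, not_mem_mul hC h1 h3 h4, map_mul _ _ _⟩)
    (by
      rintro ⟨d, h1, h2, h3⟩
      rw [hf1] at h3
      exact h2 h3)
    (by
      intro y hy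
      obtain ⟨d, rfl⟩ := hfs y
      have hdC : (d : G) ∉ C := fun h => hy ((hf1 d).2 h)
      have hd1 : (d : G) ≠ 1 := by
        intro h
        rw [h] at hdC
        exact hdC C.one_mem
      rcases hc.tot _ (hD.1 d.2) hd1 with h | h
      · exact Or.inl ⟨d, h, hdC, rfl⟩
      · refine Or.inr ⟨d⁻¹, by simpa using h, ?_, map_inv _ _⟩
        intro h'
        apply hdC
        simpa using C.inv_mem h')
    (by
      rintro g _ ⟨d, h1, h2, rfl⟩
      obtain ⟨e, rfl⟩ := hfs g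
      refine ⟨e * d * e⁻¹, by simpa using hc.inv (e : G) _ h1, ?_, by simp⟩
      intro h
      apply h2
      have := hCn.conj_mem _ h (e : G)⁻¹
      simpa [mul_assoc] using this)
    (by
      rintro _ ⟨d, h1, h2, rfl⟩ z
      obtain ⟨e, rfl⟩ := hfs z
      have hE : D ≤ arch hc (d : G) h1 := by
        refine hmin _ (arch_cvx hc h1) (lt_of_le_of_ne (le_arch hc hC h1 h2) ?_)
        intro heq
        apply h2
        rw [heq]
        exact arch_self hc h1
      obtain ⟨-, n, -, h3⟩ := hE e.2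
      refine ⟨n + 1, e⁻¹ * d ^ (n + 1), ?_, ?_, by simp⟩
      · have := hc.mul _ h3 _ h1
        rw [mul_assoc, ← pow_succ] at this
        simpa using this
      · have := not_mem_mul hC h3 h1 h2
        rw [mul_assoc, ← pow_succ] at this
        simpa using this)
    (f ⟨a, ha⟩) (f ⟨b, hb⟩)
  rw [← map_mul, ← map_mul] at hh
  have h2 := (QuotientGroup.eq (s := N)).1 hh
  rw [← map_mul, ← map_mul]
  refine (QuotientGroup.eq (s := C)).2 ?_
  simpa [hN, Subgroup.mem_subgroupOf] using h2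

theorem jump_lcs (hc : Cone H P) [hH : H.Normal] [hCn : C.Normal] (hC : Cvx H P C)
    (hD : Cvx H P D) (hCD : C < D) (hmin : ∀ E, Cvx H P E → C < E → D ≤ E)
    {a b : G} (ha : a ∈ D) (hb : b ∈ D) :
    ∃ n : ℕ, (Subgroup.closure {a, b}).lowerCentralSeries n ≤ C := by
  refine ⟨1, ?_⟩
  rw [Subgroup.lowerCentralSeries_succ, Subgroup.lowerCentralSeries_zero, Subgroup.commutator_le]
  have hle : Subgroup.closure {a, b} ≤ D := by
    rw [Subgroup.closure_le]
    intro z hz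
    simp only [Set.mem_insert_iff, Set.mem_singleton_iff] at hz
    rcases hz with rfl | rfl
    · exact ha
    · exact hb
  intro g₁ h₁ g₂ h₂
  have h := jump_comm hc hC hD hCD hmin (hle h₁) (hle h₂)
  refine (QuotientGroup.eq_one_iff _).1 ?_
  change QuotientGroup.mk' C (g₁ * g₂ * g₁⁻¹ * g₂⁻¹) = 1
  rw [map_mul, map_mul, map_mul, map_inv, map_inv, h]
  group

theorem good_bot (tf : TF G) (hc : Cone H P) : Good H P ⊥ := by
  have h0 : ∀ a ∈ iso (⊥ : Subgroup G), a = 1 := by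
    rintro a ⟨n, hn, h⟩
    exact tf a n hn (by simpa using h)
  refine ⟨inferInstance, bot_le, ?_, ?_, ?_⟩
  · intro c hc' x hx hxc
    exfalso
    rw [Subgroup.mem_bot] at hc'
    subst hc'
    rw [mul_one] at hxc
    exact hc.not_both hx hxc
  · intro a ha b hb
    rw [h0 a ha, h0 b hb, mul_one]
    exact iso_one _
  · intro a ha b hb hpa _
    rw [h0 a ha] at hpa
    exact absurd rfl (hc.Pos_ne_one hpa)

theorem good_sup {c : Set (Subgroup G)} (hne : c.Nonempty) (hch : IsChain (· ≤ ·) c)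
    (hg : ∀ C ∈ c, Good H P C) : Good H P (sSup c) := by
  have hdir : DirectedOn (· ≤ ·) c := hch.directedOn
  have hmem : ∀ {x : G}, x ∈ sSup c ↔ ∃ s ∈ c, x ∈ s :=
    fun {x} => Subgroup.mem_sSup_of_directedOn hne hdir
  have hiso : ∀ {x : G}, x ∈ iso (sSup c) → ∃ s ∈ c, x ∈ iso s := by
    rintro x ⟨n, hn, h⟩
    obtain ⟨s, hs, h⟩ := hmem.1 h
    exact ⟨s, hs, n, hn, h⟩
  have htwo : ∀ {x y : G}, x ∈ iso (sSup c) → y ∈ iso (sSup c) →
      ∃ s ∈ c, x ∈ iso s ∧ y ∈ iso s := by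
    intro x y hx hy
    obtain ⟨s, hs, hxs⟩ := hiso hx
    obtain ⟨t, ht, hyt⟩ := hiso hy
    obtain ⟨u, hu, hsu, htu⟩ := hdir s hs t ht
    exact ⟨u, hu, iso_mono hsu hxs, iso_mono htu hyt⟩
  refine ⟨⟨?_⟩, ?_, ?_, ?_, ?_⟩
  · intro n hn g
    obtain ⟨s, hs, h⟩ := hmem.1 hn
    exact hmem.2 ⟨s, hs, (hg s hs).normal.conj_mem _ h g⟩
  · exact sSup_le fun s hs => (hg s hs).le
  · intro d hd x hx hxd
    obtain ⟨s, hs, h⟩ := hmem.1 hd
    exact hmem.2 ⟨s, hs, (hg s hs).conv _ h x hx hxd⟩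
  · intro a ha b hb
    obtain ⟨s, hs, h1, h2⟩ := htwo ha hb
    exact iso_mono (le_sSup hs) ((hg s hs).mul a h1 b h2)
  · intro a ha b hb hpa hpb
    obtain ⟨s, hs, h1, h2⟩ := htwo ha hb
    exact (hg s hs).pos a h1 b h2 hpa hpb

theorem good_all (tf : TF G) (hc : Cone H P) [H.Normal] (hper : ∀ g : G, g ∈ iso H)
    (heng : ∀ x g : G, ∃ n : ℕ, (fun z : G => z⁻¹ * g⁻¹ * z * g)^[n] x ∈ H)
    (hstep : ∀ (C : Subgroup G) [C.Normal], Cvx H P C → C < H →
      (∃ D : Subgroup G, D.Normal ∧ Cvx H P D ∧ C < D ∧ ∀ a ∈ D, ∀ b ∈ D, ∃ n : ℕ,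
        (Subgroup.closure {a, b}).lowerCentralSeries n ≤ C) ∨
      (∃ D : Subgroup G, Cvx H P D ∧ C < D ∧ ∀ E : Subgroup G, Cvx H P E → C < E → D ≤ E)) :
    Good H P H := by
  obtain ⟨M, -, hM⟩ := zorn_le_nonempty₀ {C : Subgroup G | Good H P C}
    (fun c hcs hch y hy => ⟨sSup c, good_sup ⟨y, hy⟩ hch (fun C hC => hcs hC),
      fun z hz => le_sSup hz⟩) ⊥ (good_bot tf hc)
  have hMg : Good H P M := hM.prop
  by_cases hMH : M = H
  · rw [← hMH]
    rw [hMH] at hMg ⊢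
    exact hMg
  · exfalso
    have := hMg.normal
    have hlt : M < H := lt_of_le_of_ne hMg.le hMH
    have hMc : Cvx H P M := ⟨hMg.le, hMg.conv⟩
    obtain ⟨D, hDn, hDc, hMD, hnil⟩ : ∃ D : Subgroup G, D.Normal ∧ Cvx H P D ∧ M < D ∧
        ∀ a ∈ D, ∀ b ∈ D, ∃ n : ℕ, (Subgroup.closure {a, b}).lowerCentralSeries n ≤ M := by
      rcases hstep M hMc hlt with h | ⟨D, hDc, hMD, hmin⟩
      · exact h
      · exact ⟨D, jump_normal hc hDc hMD hmin, hDc, hMD, fun a ha b hb =>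
          jump_lcs hc hMc hDc hMD hmin ha hb⟩
    have hDg : Good H P D := good_step hc hper heng hMg hDn hDc.1 hMD.le hDc.2 hnil
    exact absurd (hM.le_of_ge hDg hMD.le) (not_le_of_gt hMD)

end MP611b97
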