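import Mathlib

/-!
# Orderable and left-orderable groups
-/

set_option autoImplicit false

namespace MP611b97

/-- Bi-orderable. -/
def BiOrd (L : Type*) [Group L] : Prop :=
  ∃ P : Set L, (∀ a ∈ P, ∀ b ∈ P, a * b ∈ P) ∧ (1 : L) ∉ P ∧ (∀ g : L, g ≠ 1 → g ∈ P ∨ g⁻¹ ∈ P) ∧
    (∀ g : L, ∀ a ∈ P, g * a * g⁻¹ ∈ P)

/-- Left-orderable. -/
def LeftOrd (L : Type*) [Group L] : Prop :=
  ∃ P : Set L, (∀ a ∈ P, ∀ b ∈ P, a * b ∈ P) ∧ (1 : L) ∉ P ∧ (∀ g : L, g ≠ 1 → g ∈ P ∨ g⁻¹ ∈ P)

/-- Orderable additive group. -/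
def AddOrd (M : Type*) [AddGroup M] : Prop :=
  ∃ P : Set M, (∀ a ∈ P, ∀ b ∈ P, a + b ∈ P) ∧ (0 : M) ∉ P ∧ (∀ g : M, g ≠ 0 → g ∈ P ∨ -g ∈ P)

theorem BiOrd.leftOrd {L : Type*} [Group L] (h : BiOrd L) : LeftOrd L := by
  obtain ⟨P, h1, h2, h3, _⟩ := h
  exact ⟨P, h1, h2, h3⟩

theorem BiOrd.of_injective {L K : Type*} [Group L] [Group K] (f : K →* L)
    (hf : Function.Injective f) (h : BiOrd L) : BiOrd K := by
  obtain ⟨P, h1, h2, h3, h4⟩ := h
  refine ⟨{k | f k ∈ P}, ?_, ?_, ?_, ?_⟩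
  · intro a ha b hb
    simp only [Set.mem_setOf_eq] at *
    rw [map_mul]
    exact h1 _ ha _ hb
  · simp only [Set.mem_setOf_eq, map_one]
    exact h2
  · intro g hg
    simp only [Set.mem_setOf_eq, map_inv]
    apply h3
    intro h
    apply hg
    apply hf
    rw [h, map_one]
  · intro g a ha
    simp only [Set.mem_setOf_eq] at *
    rw [map_mul, map_mul, map_inv]
    exact h4 _ _ ha

theorem LeftOrd.of_injective {L K : Type*} [Group L] [Group K] (f : K →* L)
    (hf : Function.Injective f) (h : LeftOrd L) : LeftOrd K := by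
  obtain ⟨P, h1, h2, h3⟩ := h
  refine ⟨{k | f k ∈ P}, ?_, ?_, ?_⟩
  · intro a ha b hb
    simp only [Set.mem_setOf_eq] at *
    rw [map_mul]
    exact h1 _ ha _ hb
  · simp only [Set.mem_setOf_eq, map_one]
    exact h2
  · intro g hg
    simp only [Set.mem_setOf_eq, map_inv]
    apply h3
    intro h
    apply hg
    apply hf
    rw [h, map_one]

theorem BiOrd.torsionFree {L : Type*} [Group L] (h : BiOrd L) {g : L} {n : ℕ} (hn : 0 < n)
    (hg : g ^ n = 1) : g = 1 := by
  obtain ⟨P, h1, h2, h3, _⟩ := h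
  by_contra hne
  have key : ∀ x ∈ P, ∀ k : ℕ, x ^ (k + 1) ∈ P := by
    intro x hx k
    induction k with
    | zero => simpa using hx
    | succ k ih => rw [pow_succ]; exact h1 _ ih _ hx
  obtain ⟨j, rfl⟩ : ∃ j, n = j + 1 := ⟨n - 1, by omega⟩
  rcases h3 g hne with h | h
  · have := key g h j
    rw [hg] at this
    exact h2 this
  · have := key _ h j
    rw [inv_pow, hg, inv_one] at this
    exact h2 this

/-- Products of bi-orderable groups. -/
theorem BiOrd.pi {ι : Type*} {L : ι → Type*} [∀ i, Group (L i)] (h : ∀ i, BiOrd (L i)) :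
    BiOrd (∀ i, L i) := by
  classical
  choose P h1 h2 h3 h4 using h
  set r : ι → ι → Prop := WellOrderingRel with hr
  have hwf : WellFounded r := (inferInstance : IsWellOrder ι r).toIsWellFounded.wf
  refine ⟨{f | ∃ i, f i ∈ P i ∧ ∀ j, r j i → f j = 1}, ?_, ?_, ?_, ?_⟩
  · rintro f ⟨i, hi, hi'⟩ g ⟨j, hj, hj'⟩
    rcases trichotomous_of r i j with h | h | h
    · refine ⟨i, ?_, ?_⟩
      · rw [Pi.mul_apply, hj' i h, mul_one]; exact hi
      · intro k hk
        rw [Pi.mul_apply, hi' k hk, hj' k (_root_.trans hk h), mul_one]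
    · subst h
      refine ⟨i, h1 i _ hi _ hj, ?_⟩
      intro k hk
      rw [Pi.mul_apply, hi' k hk, hj' k hk, mul_one]
    · refine ⟨j, ?_, ?_⟩
      · rw [Pi.mul_apply, hi' j h, one_mul]; exact hj
      · intro k hk
        rw [Pi.mul_apply, hj' k hk, hi' k (_root_.trans hk h), mul_one]
  · rintro ⟨i, hi, _⟩
    exact h2 i hi
  · intro f hf
    have hne : {i | f i ≠ 1}.Nonempty := by
      by_contra hcon
      apply hf
      funext i
      by_contra h
      exact hcon ⟨i, h⟩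
    set i := hwf.min {i | f i ≠ 1} hne with hi
    have hi1 : f i ≠ 1 := hwf.min_mem _ hne
    have hi2 : ∀ j, r j i → f j = 1 := by
      intro j hj
      by_contra h
      exact hwf.not_lt_min _ (show j ∈ {i | f i ≠ 1} from h) hj
    rcases h3 i (f i) hi1 with h | h
    · exact Or.inl ⟨i, h, hi2⟩
    · refine Or.inr ⟨i, h, ?_⟩
      intro j hj
      rw [Pi.inv_apply, hi2 j hj, inv_one]
  · rintro g f ⟨i, hi, hi'⟩
    refine ⟨i, h4 i _ _ hi, ?_⟩
    intro j hj
    simp [hi' j hj]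

theorem addOrd_int : AddOrd ℤ := by
  refine ⟨{n | 0 < n}, ?_, ?_, ?_⟩
  · intro a ha b hb
    simp only [Set.mem_setOf_eq] at *
    omega
  · simp
  · intro g hg
    simp only [Set.mem_setOf_eq]
    omega

/-- The leading coefficient cone. -/
def leadCone {X M : Type*} [AddGroup M] (r : X → X → Prop) (P : Set M) : Set (X →₀ M) :=
  {m | ∃ x, m x ∈ P ∧ ∀ y, r x y → m y = 0}

theorem leadCone_spec {X M : Type*} [AddCommGroup M] (r : X → X → Prop) [hr : IsStrictTotalOrder X r]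
    {P : Set M} (h1 : ∀ a ∈ P, ∀ b ∈ P, a + b ∈ P) (h2 : (0 : M) ∉ P)
    (h3 : ∀ g : M, g ≠ 0 → g ∈ P ∨ -g ∈ P) :
    (∀ a ∈ leadCone r P, ∀ b ∈ leadCone r P, a + b ∈ leadCone r P) ∧
      (0 : X →₀ M) ∉ leadCone r P ∧
      (∀ g : X →₀ M, g ≠ 0 → g ∈ leadCone r P ∨ -g ∈ leadCone r P) := by
  classical
  refine ⟨?_, ?_, ?_⟩
  · rintro f ⟨i, hi, hi'⟩ g ⟨j, hj, hj'⟩
    rcases trichotomous_of r i j with h | h | h
    · refine ⟨j, ?_, ?_⟩
      · rw [Finsupp.add_apply, hi' j h, zero_add]; exact hj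
      · intro k hk
        rw [Finsupp.add_apply, hj' k hk, hi' k (_root_.trans h hk), add_zero]
    · subst h
      refine ⟨i, h1 _ hi _ hj, ?_⟩
      intro k hk
      rw [Finsupp.add_apply, hi' k hk, hj' k hk, add_zero]
    · refine ⟨i, ?_, ?_⟩
      · rw [Finsupp.add_apply, hj' i h, add_zero]; exact hi
      · intro k hk
        rw [Finsupp.add_apply, hi' k hk, hj' k (_root_.trans h hk), add_zero]
  · rintro ⟨i, hi, _⟩
    exact h2 (by simpa using hi)
  · intro f hf
    letI : LinearOrder X := linearOrderOfSTO r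
    have hne : f.support.Nonempty := Finsupp.support_nonempty_iff.2 hf
    obtain ⟨i, hi, hmax⟩ := f.support.exists_max_image id hne
    have hi1 : f i ≠ 0 := Finsupp.mem_support_iff.1 hi
    have hi2 : ∀ j, r i j → f j = 0 := by
      intro j hj
      by_contra h
      have := hmax j (Finsupp.mem_support_iff.2 h)
      have h5 : i < j := hj
      exact absurd this (not_le_of_gt h5)
    rcases h3 _ hi1 with h | h
    · exact Or.inl ⟨i, h, hi2⟩
    · refine Or.inr ⟨i, by simpa using h, ?_⟩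
      intro j hj
      rw [Finsupp.neg_apply, hi2 j hj, neg_zero]

theorem AddOrd.finsupp {M : Type*} [AddCommGroup M] (h : AddOrd M) (X : Type*) :
    AddOrd (X →₀ M) := by
  obtain ⟨P, h1, h2, h3⟩ := h
  have := leadCone_spec (X := X) (M := M) (WellOrderingRel) h1 h2 h3
  exact ⟨_, this.1, this.2.1, this.2.2⟩

theorem AddOrd.of_injective {M N : Type*} [AddGroup M] [AddGroup N] (f : N →+ M)
    (hf : Function.Injective f) (h : AddOrd M) : AddOrd N := by
  obtain ⟨P, h1, h2, h3⟩ := h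
  refine ⟨{k | f k ∈ P}, ?_, ?_, ?_⟩
  · intro a ha b hb
    simp only [Set.mem_setOf_eq] at *
    rw [map_add]
    exact h1 _ ha _ hb
  · simp only [Set.mem_setOf_eq, map_zero]
    exact h2
  · intro g hg
    simp only [Set.mem_setOf_eq, map_neg]
    apply h3
    intro h
    apply hg
    apply hf
    rw [h, map_zero]

/-- The order on a left-ordered group. -/
theorem sto_of_leftOrd {B : Type*} [Group B] {P : Set B} (h1 : ∀ a ∈ P, ∀ b ∈ P, a * b ∈ P)
    (h2 : (1 : B) ∉ P) (h3 : ∀ g : B, g ≠ 1 → g ∈ P ∨ g⁻¹ ∈ P) :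
    IsStrictTotalOrder B (fun x y => x⁻¹ * y ∈ P) where
  trichotomous := by
    intro a b hab hba
    by_contra hne
    have : a⁻¹ * b ≠ 1 := by
      intro h
      rw [inv_mul_eq_one] at h
      exact hne h
    rcases h3 _ this with h | h
    · exact hab h
    · apply hba
      simpa using h
  irrefl := by
    intro a h
    simp only [inv_mul_cancel] at h
    exact h2 h
  trans := by
    intro a b c hab hbc
    have := h1 _ hab _ hbc
    simpa [mul_assoc] using this

end MP611b97
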