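import Pool.Agent.Work.MP_611b97_al.Top

/-!
# Central extensions and torsion
-/

set_option autoImplicit false

namespace MP611b97

universe u

/-- In every central extension of a subgroup of `Q` by a torsion-free group the elements of
finite order are closed under multiplication. -/
def TorsClosed (Q : Type u) [Group Q] : Prop :=
  ∀ (Γ : Type u) [Group Γ] (π : Γ →* Q), π.ker ≤ Subgroup.center Γ →
    (∀ a ∈ π.ker, ∀ n : ℕ, 0 < n → a ^ n = 1 → a = 1) →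
    ∀ x y : Γ, IsOfFinOrder x → IsOfFinOrder y → IsOfFinOrder (x * y)

section

variable {Γ : Type u} [Group Γ] {A : Subgroup Γ}

/-- The antidiagonal subgroup used to push out along the `n`-th power map. -/
def diagN (A : Subgroup Γ) (hA : A ≤ Subgroup.center Γ) (n : ℕ) : Subgroup (Γ × A) where
  carrier := {p | p.1 ∈ A ∧ (p.2 : Γ) = (p.1 ^ n)⁻¹}
  one_mem' := ⟨A.one_mem, by simp⟩
  mul_mem' := by
    rintro ⟨a, α⟩ ⟨b, β⟩ ⟨ha, hα⟩ ⟨hb, hβ⟩
    refine ⟨A.mul_mem ha hb, ?_⟩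
    have hab : Commute a b := (Subgroup.mem_center_iff.1 (hA ha) b).symm
    change ((α * β : A) : Γ) = ((a * b) ^ n)⁻¹
    rw [Subgroup.coe_mul, hab.mul_pow, mul_inv_rev]
    change (α : Γ) * (β : Γ) = _
    simp only at hα hβ
    rw [hα, hβ]
    exact ((hab.pow_pow n n).inv_inv).eq
  inv_mem' := by
    rintro ⟨a, α⟩ ⟨ha, hα⟩
    refine ⟨A.inv_mem ha, ?_⟩
    change ((α⁻¹ : A) : Γ) = ((a⁻¹) ^ n)⁻¹
    simp only at hα
    rw [Subgroup.coe_inv, hα, inv_pow]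

theorem mem_diagN {hA : A ≤ Subgroup.center Γ} {n : ℕ} {p : Γ × A} :
    p ∈ diagN A hA n ↔ p.1 ∈ A ∧ (p.2 : Γ) = (p.1 ^ n)⁻¹ := Iff.rfl

theorem central_pair {hA : A ≤ Subgroup.center Γ} {p : Γ × A} (hp : p.1 ∈ A) (r : Γ × A) :
    r * p = p * r := by
  apply Prod.ext
  · exact Subgroup.mem_center_iff.1 (hA hp) r.1
  · apply Subtype.ext
    exact Subgroup.mem_center_iff.1 (hA p.2.2) r.2

theorem diagN_normal {hA : A ≤ Subgroup.center Γ} {n : ℕ} : (diagN A hA n).Normal := by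
  constructor
  intro p hp r
  rw [central_pair (hA := hA) hp.1 r, mul_inv_cancel_right]
  exact hp

end

/-- The consequence for powers. -/
theorem pow_of_torsClosed {Q : Type u} [Group Q] (hT : TorsClosed Q) {Γ : Type u} [Group Γ]
    (π : Γ →* Q) (hcen : π.ker ≤ Subgroup.center Γ)
    (htf : ∀ a ∈ π.ker, ∀ n : ℕ, 0 < n → a ^ n = 1 → a = 1) {x y : Γ} {n : ℕ} (hn : 0 < n)
    (hx : x ^ n ∈ π.ker) (hy : y ^ n ∈ π.ker) :
    ∃ m : ℕ, 0 < m ∧ (x * y) ^ (n * m) = (x ^ n * y ^ n) ^ m := by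
  set A := π.ker with hA
  set D := diagN A hcen n with hD
  have hDn : D.Normal := diagN_normal
  have hker : ∀ p ∈ D, (π.comp (MonoidHom.fst Γ A)) p = 1 := fun p hp => hp.1
  set π' : (Γ × A) ⧸ D →* Q := QuotientGroup.lift D (π.comp (MonoidHom.fst Γ A)) hker with hπ'
  have hπmk : ∀ p : Γ × A, π' (QuotientGroup.mk' D p) = π p.1 := fun p => rfl
  have hcen' : π'.ker ≤ Subgroup.center ((Γ × A) ⧸ D) := by
    intro g hg
    obtain ⟨p, rfl⟩ := QuotientGroup.mk'_surjective D g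
    rw [MonoidHom.mem_ker, hπmk] at hg
    rw [Subgroup.mem_center_iff]
    intro r'
    obtain ⟨r, rfl⟩ := QuotientGroup.mk'_surjective D r'
    rw [← map_mul, ← map_mul, central_pair (hA := hcen) (show p.1 ∈ A from hg) r]
  have htf' : ∀ a ∈ π'.ker, ∀ k : ℕ, 0 < k → a ^ k = 1 → a = 1 := by
    intro g hg k hk hgk
    obtain ⟨⟨γ, c⟩, rfl⟩ := QuotientGroup.mk'_surjective D g
    rw [MonoidHom.mem_ker, hπmk] at hg
    have hγ : γ ∈ A := hg
    rw [← map_pow] at hgk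
    have h1 : ((γ, c) : Γ × A) ^ k ∈ D := (QuotientGroup.eq_one_iff _).1 hgk
    obtain ⟨h2, h3⟩ := h1
    have h4 : ((c : Γ)) ^ k = ((γ ^ k) ^ n)⁻¹ := by simpa using h3
    have hcomm : Commute (c : Γ) (γ ^ n) :=
      (Subgroup.mem_center_iff.1 (hcen c.2) (γ ^ n)).symm
    have h5 : ((c : Γ) * γ ^ n) ^ k = 1 := by
      rw [hcomm.mul_pow, h4, ← pow_mul, ← pow_mul, mul_comm k n]
      simp
    have h6 := htf _ (A.mul_mem c.2 (A.pow_mem hγ n)) k hk h5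
    have h7 : ((γ, c) : Γ × A) ∈ D := ⟨hγ, by
      change (c : Γ) = (γ ^ n)⁻¹
      exact eq_inv_of_mul_eq_one_left h6⟩
    exact (QuotientGroup.eq_one_iff _).2 h7
  set x' : (Γ × A) ⧸ D := QuotientGroup.mk' D (x, ⟨(x ^ n)⁻¹, A.inv_mem hx⟩) with hx'
  set y' : (Γ × A) ⧸ D := QuotientGroup.mk' D (y, ⟨(y ^ n)⁻¹, A.inv_mem hy⟩) with hy'
  have hxf : IsOfFinOrder x' := by
    rw [isOfFinOrder_iff_pow_eq_one]
    refine ⟨n, hn, ?_⟩
    rw [hx', ← map_pow]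
    refine (QuotientGroup.eq_one_iff _).2 ⟨hx, ?_⟩
    simp
  have hyf : IsOfFinOrder y' := by
    rw [isOfFinOrder_iff_pow_eq_one]
    refine ⟨n, hn, ?_⟩
    rw [hy', ← map_pow]
    refine (QuotientGroup.eq_one_iff _).2 ⟨hy, ?_⟩
    simp
  have hxy := hT ((Γ × A) ⧸ D) π' hcen' htf' x' y' hxf hyf
  rw [isOfFinOrder_iff_pow_eq_one] at hxy
  obtain ⟨m, hm, h⟩ := hxy
  refine ⟨m, hm, ?_⟩
  rw [hx', hy', ← map_mul, ← map_pow] at h
  obtain ⟨h1, h2⟩ := (QuotientGroup.eq_one_iff _).1 h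
  have h3 : ((x ^ n)⁻¹ * (y ^ n)⁻¹) ^ m = (((x * y) ^ m) ^ n)⁻¹ := by simpa using h2
  have hcomm : Commute (x ^ n) (y ^ n) := (Subgroup.mem_center_iff.1 (hcen hx) (y ^ n)).symm
  rw [← mul_inv_rev, ← hcomm.eq, inv_pow, inv_inj] at h3
  rw [mul_comm n m, pow_mul, ← h3]

end MP611b97
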