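import Pool.Agent.Work.MP_611b97_al.Ord

/-!
# Semidirect products with permutation modules
-/

set_option autoImplicit false

namespace MP611b97

section

variable {A C M : Type*} [Group A] [Group C] [AddCommGroup M]

/-- Translation of finitely supported functions. -/
noncomputable def tr (c : C) : (C →₀ M) →+ (C →₀ M) := Finsupp.mapDomain.addMonoidHom (c * ·)

theorem tr_apply (c : C) (m : C →₀ M) (x : C) : tr c m x = m (c⁻¹ * x) := by
  have h := Finsupp.mapDomain_apply (f := (c * ·)) (mul_right_injective c) m (c⁻¹ * x)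
  simp only [mul_inv_cancel_left] at h
  exact h

theorem tr_one (m : C →₀ M) : tr (1 : C) m = m := by
  ext x
  rw [tr_apply, inv_one, one_mul]

theorem tr_mul (c d : C) (m : C →₀ M) : tr (c * d) m = tr c (tr d m) := by
  ext x
  rw [tr_apply, tr_apply, tr_apply, mul_inv_rev, mul_assoc]

/-- The semidirect product of the finitely supported functions `C →₀ M` with `A`, acting through
`γ : A → C` by translation. -/
def SD (γ : A →* C) (M : Type*) [AddCommGroup M] : Type _ := (C →₀ M) × A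

variable {γ : A →* C}

noncomputable instance : Mul (SD γ M) := ⟨fun p q => (p.1 + tr (γ p.2) q.1, p.2 * q.2)⟩

noncomputable instance : One (SD γ M) := ⟨(0, 1)⟩

noncomputable instance : Inv (SD γ M) := ⟨fun p => (-(tr (γ p.2⁻¹) p.1), p.2⁻¹)⟩

theorem SD.mul_fst (p q : SD γ M) : (p * q).1 = p.1 + tr (γ p.2) q.1 := rfl

theorem SD.mul_snd (p q : SD γ M) : (p * q).2 = p.2 * q.2 := rfl

theorem SD.one_fst : (1 : SD γ M).1 = 0 := rfl

theorem SD.one_snd : (1 : SD γ M).2 = 1 := rfl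

theorem SD.inv_fst (p : SD γ M) : (p⁻¹).1 = -(tr (γ p.2⁻¹) p.1) := rfl

theorem SD.inv_snd (p : SD γ M) : (p⁻¹).2 = p.2⁻¹ := rfl

/-- The element with given components. -/
def SD.mk (l : C →₀ M) (r : A) : SD γ M := (l, r)

theorem SD.mk_fst (l : C →₀ M) (r : A) : (SD.mk l r : SD γ M).1 = l := rfl

theorem SD.mk_snd (l : C →₀ M) (r : A) : (SD.mk l r : SD γ M).2 = r := rfl

theorem SD.ext' {p q : SD γ M} (h1 : p.1 = q.1) (h2 : p.2 = q.2) : p = q := Prod.ext h1 h2

noncomputable instance : Group (SD γ M) :=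
  Group.ofLeftAxioms
    (by
      intro p q r
      apply SD.ext'
      · rw [SD.mul_fst, SD.mul_fst, SD.mul_fst, SD.mul_fst, SD.mul_snd, map_mul, tr_mul, map_add,
          add_assoc]
      · rw [SD.mul_snd, SD.mul_snd, SD.mul_snd, SD.mul_snd, mul_assoc])
    (by
      intro p
      apply SD.ext'
      · rw [SD.mul_fst, SD.one_fst, SD.one_snd, map_one, tr_one, zero_add]
      · rw [SD.mul_snd, SD.one_snd, one_mul])
    (by
      intro p
      apply SD.ext'
      · rw [SD.mul_fst, SD.inv_fst, SD.inv_snd, neg_add_cancel, SD.one_fst]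
      · rw [SD.mul_snd, SD.inv_snd, inv_mul_cancel, SD.one_snd])

end

section

variable {A C M A' C' M' : Type*} [Group A] [Group C] [AddCommGroup M] [Group A'] [Group C']
  [AddCommGroup M'] {γ : A →* C} {γ' : A' →* C'}

/-- Pushing forward finitely supported functions. -/
noncomputable def kf (g : C →* C') (h : M →+ M') : (C →₀ M) →+ (C' →₀ M') :=
  (Finsupp.mapRange.addMonoidHom h).comp (Finsupp.mapDomain.addMonoidHom g)

theorem kf_single (g : C →* C') (h : M →+ M') (c : C) (m : M) :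
    kf g h (Finsupp.single c m) = Finsupp.single (g c) (h m) := by
  simp [kf]

theorem tr_single (c d : C) (m : M) :
    tr c (Finsupp.single d m) = Finsupp.single (c * d) m := by
  simp [tr]

theorem kf_tr (g : C →* C') (h : M →+ M') (c : C) (m : C →₀ M) :
    kf g h (tr c m) = tr (g c) (kf g h m) := by
  have : (kf g h).comp (tr c) = (tr (g c)).comp (kf g h) := by
    apply Finsupp.addHom_ext
    intro d m
    simp only [AddMonoidHom.comp_apply]
    rw [tr_single, kf_single, kf_single, tr_single, map_mul]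
  exact DFunLike.congr_fun this m

theorem kf_surjective {g : C →* C'} {h : M →+ M'} (hg : Function.Surjective g)
    (hh : Function.Surjective h) : Function.Surjective (kf g h) := by
  intro y
  induction y using Finsupp.induction_linear with
  | zero => exact ⟨0, map_zero _⟩
  | add a b ha hb =>
    obtain ⟨x, rfl⟩ := ha
    obtain ⟨y, rfl⟩ := hb
    exact ⟨x + y, map_add _ _ _⟩
  | single c m =>
    obtain ⟨c, rfl⟩ := hg c
    obtain ⟨m, rfl⟩ := hh m
    exact ⟨Finsupp.single c m, kf_single _ _ _ _⟩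

/-- Functoriality. -/
noncomputable def mapSD (f : A →* A') (g : C →* C') (h : M →+ M')
    (hc : ∀ a, g (γ a) = γ' (f a)) : SD γ M →* SD γ' M' where
  toFun p := (kf g h p.1, f p.2)
  map_one' := by
    apply SD.ext'
    · exact map_zero _
    · exact map_one f
  map_mul' := by
    intro p q
    apply SD.ext'
    · change kf g h (p.1 + tr (γ p.2) q.1) = kf g h p.1 + tr (γ' (f p.2)) (kf g h q.1)
      rw [map_add, kf_tr, hc]
    · exact map_mul f _ _

theorem mapSD_surjective {f : A →* A'} {g : C →* C'} {h : M →+ M'}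
    {hc : ∀ a, g (γ a) = γ' (f a)} (hf : Function.Surjective f) (hg : Function.Surjective g)
    (hh : Function.Surjective h) : Function.Surjective (mapSD (γ := γ) (γ' := γ') f g h hc) := by
  rintro ⟨y, b⟩
  obtain ⟨x, rfl⟩ := kf_surjective hg hh y
  obtain ⟨a, rfl⟩ := hf b
  exact ⟨(x, a), rfl⟩

theorem mapSD_ker {f : A →* A'} {g : C →* C'} {h : M →+ M'}
    {hc : ∀ a, g (γ a) = γ' (f a)} (hle : ∀ a, f a = 1 → γ a = 1)
    (hab : ∀ a b, f a = 1 → f b = 1 → a * b = b * a) (p q : SD γ M)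
    (hp : mapSD (γ := γ) (γ' := γ') f g h hc p = 1)
    (hq : mapSD (γ := γ) (γ' := γ') f g h hc q = 1) : p * q = q * p := by
  have hp2 : f p.2 = 1 := congrArg Prod.snd hp
  have hq2 : f q.2 = 1 := congrArg Prod.snd hq
  apply SD.ext'
  · rw [SD.mul_fst, SD.mul_fst, hle _ hp2, hle _ hq2, tr_one, tr_one, add_comm]
  · rw [SD.mul_snd, SD.mul_snd, hab _ _ hp2 hq2]

end

section

variable {A C M : Type*} [Group A] [Group C] [AddCommGroup M] {γ : A →* C}

theorem SD.conj_fst (g p : SD γ M) (hp : p.2 = 1) : (g * p * g⁻¹).1 = tr (γ g.2) p.1 := by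
  rw [SD.mul_fst, SD.mul_fst, SD.mul_snd, SD.inv_fst, hp, mul_one, map_neg, ← tr_mul,
    ← map_mul, mul_inv_cancel, map_one, tr_one]
  abel

theorem SD.leftOrd (hA : LeftOrd A) (hM : AddOrd M) : LeftOrd (SD γ M) := by
  obtain ⟨P, h1, h2, h3⟩ := hA
  obtain ⟨R, r1, r2, r3⟩ := hM.finsupp C
  refine ⟨{p | p.2 ∈ P ∨ (p.2 = 1 ∧ p.1 ∈ R)}, ?_, ?_, ?_⟩
  · rintro p (hp | ⟨hp, hp'⟩) q (hq | ⟨hq, hq'⟩)
    · left; rw [SD.mul_snd]; exact h1 _ hp _ hq
    · left; rw [SD.mul_snd, hq, mul_one]; exact hp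
    · left; rw [SD.mul_snd, hp, one_mul]; exact hq
    · right
      rw [SD.mul_snd, hp, hq, one_mul, SD.mul_fst, hp, map_one, tr_one]
      exact ⟨rfl, r1 _ hp' _ hq'⟩
  · rintro (h | ⟨_, h⟩)
    · exact h2 h
    · exact r2 h
  · intro p hp
    by_cases h : p.2 = 1
    · have hp1 : p.1 ≠ 0 := by
        intro h'
        exact hp (SD.ext' h' h)
      rcases r3 _ hp1 with h' | h'
      · exact Or.inl (Or.inr ⟨h, h'⟩)
      · refine Or.inr (Or.inr ⟨?_, ?_⟩)
        · rw [SD.inv_snd, h, inv_one]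
        · rw [SD.inv_fst, h, inv_one, map_one, tr_one]
          exact h'
    · rcases h3 _ h with h' | h'
      · exact Or.inl (Or.inl h')
      · exact Or.inr (Or.inl h')

theorem SD.biOrd (hA : BiOrd A) (hC : LeftOrd C) (hM : AddOrd M) : BiOrd (SD γ M) := by
  obtain ⟨P, h1, h2, h3, h4⟩ := hA
  obtain ⟨PC, c1, c2, c3⟩ := hC
  obtain ⟨PM, m1, m2, m3⟩ := hM
  have hsto := sto_of_leftOrd c1 c2 c3
  obtain ⟨r1, r2, r3⟩ := leadCone_spec (X := C) (fun x y => x⁻¹ * y ∈ PC) m1 m2 m3
  set R := leadCone (fun x y : C => x⁻¹ * y ∈ PC) PM with hR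
  have r4 : ∀ (c : C), ∀ m ∈ R, tr c m ∈ R := by
    rintro c m ⟨x, hx, hx'⟩
    refine ⟨c * x, ?_, ?_⟩
    · rw [tr_apply, inv_mul_cancel_left]; exact hx
    · intro y hy
      rw [tr_apply]
      apply hx'
      have : (c * x)⁻¹ * y = x⁻¹ * (c⁻¹ * y) := by group
      rwa [this] at hy
  refine ⟨{p | p.2 ∈ P ∨ (p.2 = 1 ∧ p.1 ∈ R)}, ?_, ?_, ?_, ?_⟩
  · rintro p (hp | ⟨hp, hp'⟩) q (hq | ⟨hq, hq'⟩)
    · left; rw [SD.mul_snd]; exact h1 _ hp _ hq
    · left; rw [SD.mul_snd, hq, mul_one]; exact hp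
    · left; rw [SD.mul_snd, hp, one_mul]; exact hq
    · right
      rw [SD.mul_snd, hp, hq, one_mul, SD.mul_fst, hp, map_one, tr_one]
      exact ⟨rfl, r1 _ hp' _ hq'⟩
  · rintro (h | ⟨_, h⟩)
    · exact h2 h
    · exact r2 h
  · intro p hp
    by_cases h : p.2 = 1
    · have hp1 : p.1 ≠ 0 := by
        intro h'
        exact hp (SD.ext' h' h)
      rcases r3 _ hp1 with h' | h'
      · exact Or.inl (Or.inr ⟨h, h'⟩)
      · refine Or.inr (Or.inr ⟨?_, ?_⟩)
        · rw [SD.inv_snd, h, inv_one]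
        · rw [SD.inv_fst, h, inv_one, map_one, tr_one]
          exact h'
    · rcases h3 _ h with h' | h'
      · exact Or.inl (Or.inl h')
      · exact Or.inr (Or.inl h')
  · rintro g p (hp | ⟨hp, hp'⟩)
    · left
      rw [SD.mul_snd, SD.mul_snd, SD.inv_snd]
      exact h4 _ _ hp
    · right
      constructor
      · rw [SD.mul_snd, SD.mul_snd, SD.inv_snd, hp, mul_one, mul_inv_cancel]
      · rw [SD.conj_fst g p hp]
        exact r4 _ _ hp'

end

end MP611b97
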