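import Pool.Agent.Work.MP_611b97_al.Closure

/-!
# One convex step
-/

set_option autoImplicit false

namespace MP611b97

theorem iter_map {A B : Type*} [Group A] [Group B] (f : A →* B) (g : A) (n : ℕ) (x : A) :
    f ((fun z : A => z⁻¹ * g⁻¹ * z * g)^[n] x) =
      (fun z : B => z⁻¹ * (f g)⁻¹ * z * (f g))^[n] (f x) := by
  induction n generalizing x with
  | zero => rfl
  | succ n ih =>
    rw [Function.iterate_succ_apply, Function.iterate_succ_apply, ih]
    congr 1
    simp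

/-- Isolators of normal subgroups whose two-generator subgroups are nilpotent. -/
theorem thmA {X : Type*} [Group X] (tf : TF X) {Y : Subgroup X} {P : Set X} (hc : Cone Y P)
    [Y.Normal] (heng : ∀ x g : X, ∃ n : ℕ, (fun z : X => z⁻¹ * g⁻¹ * z * g)^[n] x ∈ Y)
    (U : Subgroup X) [U.Normal]
    (hU : ∀ a ∈ U, ∀ b ∈ U, Group.IsNilpotent (Subgroup.closure {a, b}))
    {x y : X} (hx : x ∈ iso U) (hy : y ∈ iso U) :
    x * y ∈ iso U ∧ (Pos P x → Pos P y → Pos P (x * y)) := by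
  obtain ⟨a, ha, hxa⟩ := hx
  obtain ⟨b, hb, hyb⟩ := hy
  set L := Subgroup.closure {x, y} with hL
  have hxL : x ∈ L := Subgroup.subset_closure (by simp)
  have hyL : y ∈ L := Subgroup.subset_closure (by simp)
  set x' : L := ⟨x, hxL⟩ with hx'
  set y' : L := ⟨y, hyL⟩ with hy'
  have hKL : Subgroup.closure {x ^ a, y ^ b} ≤ L := by
    rw [Subgroup.closure_le]
    intro z hz
    rcases hz with rfl | hz
    · exact L.pow_mem hxL a
    · rw [Set.mem_singleton_iff] at hz
      subst hz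
      exact L.pow_mem hyL b
  have hKn : Group.IsNilpotent ((Subgroup.closure {x ^ a, y ^ b}).subgroupOf L) := by
    have := hU _ hxa _ hyb
    exact Group.nilpotent_of_mulEquiv (Subgroup.subgroupOfEquivOfLe hKL).symm
  have hgen : Subgroup.closure {x', y'} = (⊤ : Subgroup L) := by
    have h := Subgroup.closure_closure_coe_preimage (k := ({x, y} : Set X))
    rw [← h]
    congr 1
    ext z
    simp only [Set.mem_insert_iff, Set.mem_singleton_iff, Set.mem_preimage]
    constructor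
    · rintro (rfl | rfl)
      · left; rfl
      · right; rfl
    · rintro (h1 | h1)
      · left; exact Subtype.ext h1
      · right; exact Subtype.ext h1
  have tfL : TF L := by
    intro g n hn hg
    apply Subtype.ext
    apply tf (g : X) n hn
    have := congrArg (fun z : L => (z : X)) hg
    simpa using this
  have hcL : Cone (Y.subgroupOf L) {l : L | (l : X) ∈ P} := by
    refine ⟨?_, ?_, ?_, ?_, ?_⟩
    · intro l hl
      exact hc.sub hl
    · intro u hu v hv
      exact hc.mul _ hu _ hv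
    · exact hc.one
    · intro h hh hne
      have := hc.tot (h : X) hh (by intro e; exact hne (Subtype.ext e))
      simpa using this
    · intro g u hu
      exact hc.inv _ _ hu
  have hengL : ∀ u g : L, ∃ n : ℕ, (fun z : L => z⁻¹ * g⁻¹ * z * g)^[n] u ∈ Y.subgroupOf L := by
    intro u g
    obtain ⟨n, hn⟩ := heng (u : X) (g : X)
    refine ⟨n, ?_⟩
    rw [Subgroup.mem_subgroupOf]
    have := iter_map L.subtype g n u
    simp only [Subgroup.coe_subtype] at this
    rw [this]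
    exact hn
  have hLn : Group.IsNilpotent L :=
    nilpotent_of_powers tfL hcL hengL hgen ha hb _ hKn
      (Subgroup.subset_closure (by simp) : x ^ a ∈ Subgroup.closure {x ^ a, y ^ b})
      (Subgroup.subset_closure (by simp) : y ^ b ∈ Subgroup.closure {x ^ a, y ^ b})
  constructor
  · have h := Pos_mul_of_nilpotent (R := {l : L | (l : X) ∈ U}) hLn
      (fun u hu v hv => U.mul_mem hu hv)
      (fun g u hu => (inferInstance : U.Normal).conj_mem _ hu _) (a := x') (b := y')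
      ⟨a, ha, hxa⟩ ⟨b, hb, hyb⟩
    obtain ⟨n, hn, h⟩ := h
    exact ⟨n, hn, h⟩
  · rintro ⟨k, hk, hxk⟩ ⟨l, hl, hyl⟩
    have h := Pos_mul_of_nilpotent (R := {l : L | (l : X) ∈ P}) hLn
      (fun u hu v hv => hc.mul _ hu _ hv) (fun g u hu => hc.inv _ _ hu) (a := x') (b := y')
      ⟨k, hk, hxk⟩ ⟨l, hl, hyl⟩
    obtain ⟨n, hn, h⟩ := h
    exact ⟨n, hn, h⟩

variable {G : Type*} [Group G]

/-- The subgroups `C` handled in the ascending induction. -/
structure Good (H : Subgroup G) (P : Set G) (C : Subgroup G) : Prop where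
  normal : C.Normal
  le : C ≤ H
  conv : ∀ c ∈ C, ∀ x ∈ P, x⁻¹ * c ∈ P → x ∈ C
  mul : ∀ a ∈ iso C, ∀ b ∈ iso C, a * b ∈ iso C
  pos : ∀ a ∈ iso C, ∀ b ∈ iso C, Pos P a → Pos P b → Pos P (a * b)

section

variable {H : Subgroup G} {P : Set G} {C : Subgroup G}

theorem conv_root (hc : Cone H P)
    (hconv : ∀ c ∈ C, ∀ x ∈ P, x⁻¹ * c ∈ P → x ∈ C) {h : G} (hh : h ∈ H)
    (hi : h ∈ iso C) : h ∈ C := by
  have key : ∀ x ∈ P, x ∈ iso C → x ∈ C := by
    rintro x hx ⟨n, hn, hxn⟩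
    obtain ⟨j, rfl⟩ : ∃ j, n = j + 1 := ⟨n - 1, by omega⟩
    rcases Nat.eq_zero_or_pos j with rfl | hj
    · simpa using hxn
    · refine hconv _ hxn x hx ?_
      rw [pow_succ', inv_mul_cancel_left]
      exact hc.pow hx hj
  by_cases h1 : h = 1
  · rw [h1]; exact C.one_mem
  · rcases hc.tot h hh h1 with hp | hp
    · exact key h hp hi
    · have := key _ hp (iso_inv hi)
      simpa using this

theorem good_step (hc : Cone H P) [H.Normal] (hper : ∀ g : G, g ∈ iso H)
    (heng : ∀ x g : G, ∃ n : ℕ, (fun z : G => z⁻¹ * g⁻¹ * z * g)^[n] x ∈ H)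
    [hCn : C.Normal] (hC : Good H P C) {D : Subgroup G} (hDn : D.Normal) (hDH : D ≤ H) (hCD : C ≤ D)
    (hDconv : ∀ c ∈ D, ∀ x ∈ P, x⁻¹ * c ∈ P → x ∈ D)
    (hnil : ∀ a ∈ D, ∀ b ∈ D, ∃ n : ℕ,
      (Subgroup.closure {a, b}).lowerCentralSeries n ≤ C) : Good H P D := by
  set T := isoSub C hC.mul with hT
  have hTn : T.Normal := isoSub_normal hC.mul
  have hCT : C ≤ T := fun c hc' => mem_iso hc'
  have hTH : ∀ h ∈ H, h ∈ T → h ∈ C := fun h hh ht => conv_root hc hC.conv hh ht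
  set q := QuotientGroup.mk' T with hq
  have hqs : Function.Surjective q := QuotientGroup.mk'_surjective T
  have hq1 : ∀ g : G, q g = 1 ↔ g ∈ T := fun g => QuotientGroup.eq_one_iff g
  have hqe : ∀ g h : G, q g = q h ↔ g⁻¹ * h ∈ T := fun g h => QuotientGroup.eq
  -- the quotient is torsion-free
  have tfX : TF (G ⧸ T) := by
    intro x n hn hx
    obtain ⟨g, rfl⟩ := hqs x
    rw [← map_pow, hq1] at hx
    rw [hq1]
    exact iso_iso hn hx
  -- the cone
  set P' : Set (G ⧸ T) := q '' (P \ (C : Set G)) with hP'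
  have hYn : (H.map q).Normal := Subgroup.Normal.map inferInstance q hqs
  have hcX : Cone (H.map q) P' := by
    refine ⟨?_, ?_, ?_, ?_, ?_⟩
    · rintro _ ⟨a, ⟨ha, _⟩, rfl⟩
      exact Subgroup.mem_map_of_mem q (hc.sub ha)
    · rintro _ ⟨a, ⟨ha, ha'⟩, rfl⟩ _ ⟨b, ⟨hb, hb'⟩, rfl⟩
      refine ⟨a * b, ⟨hc.mul _ ha _ hb, ?_⟩, map_mul _ _ _⟩
      intro hab
      apply ha'
      refine hC.conv _ hab a ha ?_
      rwa [inv_mul_cancel_left]
    · rintro ⟨a, ⟨ha, ha'⟩, e⟩
      rw [hq1] at e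
      exact ha' (hTH a (hc.sub ha) e)
    · rintro _ ⟨h, hh, rfl⟩ hne
      have hhC : h ∉ C := fun hh' => hne ((hq1 h).2 (hCT hh'))
      have h1 : h ≠ 1 := by
        rintro rfl
        exact hhC C.one_mem
      rcases hc.tot h hh h1 with hp | hp
      · exact Or.inl ⟨h, ⟨hp, hhC⟩, rfl⟩
      · refine Or.inr ⟨h⁻¹, ⟨hp, ?_⟩, map_inv _ _⟩
        intro hh'
        apply hhC
        simpa using C.inv_mem hh'
    · rintro g' _ ⟨a, ⟨ha, ha'⟩, rfl⟩
      obtain ⟨g, rfl⟩ := hqs g'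
      refine ⟨g * a * g⁻¹, ⟨hc.inv g a ha, ?_⟩, by simp⟩
      intro h
      apply ha'
      have := hCn.conj_mem _ h g⁻¹
      simpa [mul_assoc] using this
  have hengX : ∀ x g : G ⧸ T, ∃ n : ℕ,
      (fun z : G ⧸ T => z⁻¹ * g⁻¹ * z * g)^[n] x ∈ H.map q := by
    intro x g
    obtain ⟨x, rfl⟩ := hqs x
    obtain ⟨g, rfl⟩ := hqs g
    obtain ⟨n, hn⟩ := heng x g
    refine ⟨n, ?_⟩
    rw [← iter_map]
    exact Subgroup.mem_map_of_mem q hn
  have hUn : (D.map q).Normal := Subgroup.Normal.map hDn q hqs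
  have hU : ∀ a ∈ D.map q, ∀ b ∈ D.map q, Group.IsNilpotent (Subgroup.closure {a, b}) := by
    rintro _ ⟨a, ha, rfl⟩ _ ⟨b, hb, rfl⟩
    obtain ⟨n, hn⟩ := hnil a ha b hb
    have e : Subgroup.closure {q a, q b} = (Subgroup.closure {a, b}).map q := by
      rw [MonoidHom.map_closure, Set.image_pair]
    refine Subgroup.isNilpotent_of_lowerCentralSeries_eq_bot (n := n) ?_
    rw [e, ← Subgroup.map_lowerCentralSeries, eq_bot_iff]
    rintro _ ⟨c, hc', rfl⟩
    rw [Subgroup.mem_bot, hq1]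
    exact hCT (hn hc')
  -- pulling back
  have hiso1 : ∀ g ∈ iso D, q g ∈ iso (D.map q) := by
    rintro g ⟨n, hn, h⟩
    exact ⟨n, hn, by rw [← map_pow]; exact Subgroup.mem_map_of_mem q h⟩
  have hiso2 : ∀ g : G, q g ∈ iso (D.map q) → g ∈ iso D := by
    rintro g ⟨n, hn, ⟨d, hd, e⟩⟩
    rw [← map_pow, hqe] at e
    obtain ⟨m, hm, ht⟩ := e
    refine ⟨n * m, Nat.mul_pos hn hm, ?_⟩
    rw [pow_mul]
    have e3 : QuotientGroup.mk' D ((g ^ n) ^ m) = 1 := by
      have e4 : QuotientGroup.mk' D (g ^ n) = QuotientGroup.mk' D (d⁻¹ * g ^ n) := by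
        rw [map_mul, map_inv]
        have : QuotientGroup.mk' D d = 1 := (QuotientGroup.eq_one_iff _).2 hd
        rw [this]; simp
      rw [map_pow, e4, ← map_pow]
      exact (QuotientGroup.eq_one_iff _).2 (hCD ht)
    exact (QuotientGroup.eq_one_iff _).1 e3
  have hpos1 : ∀ g : G, g ∉ T → Pos P g → Pos P' (q g) := by
    rintro g hg ⟨n, hn, h⟩
    refine ⟨n, hn, ?_⟩
    rw [← map_pow]
    exact ⟨g ^ n, ⟨h, fun h' => hg ⟨n, hn, h'⟩⟩, rfl⟩
  have hpos2 : ∀ g : G, Pos P' (q g) → Pos P g := by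
    rintro g ⟨n, hn, ⟨p, ⟨hp, hpC⟩, e⟩⟩
    rw [← map_pow] at e
    obtain ⟨m, hm, hgm⟩ := hper g
    have h1 : (g ^ n) ^ m ∈ H := by
      rw [← pow_mul, mul_comm, pow_mul]
      exact H.pow_mem hgm n
    have h2 : (p ^ m)⁻¹ * (g ^ n) ^ m ∈ C := by
      apply hTH
      · exact H.mul_mem (H.inv_mem (H.pow_mem (hc.sub hp) m)) h1
      · rw [← hqe, map_pow, map_pow, e]
    have h3 : p ^ m ∈ P := hc.pow hp hm
    have h4 : p ^ m ∉ C := by
      intro h
      exact hpC (conv_root hc hC.conv (hc.sub hp) ⟨m, hm, h⟩)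
    set x := p ^ m with hx
    set c := x⁻¹ * (g ^ n) ^ m with hcdef
    have e5 : (g ^ n) ^ m = x * c := by rw [hcdef, mul_inv_cancel_left]
    refine ⟨n * m, Nat.mul_pos hn hm, ?_⟩
    rw [pow_mul]
    have hne : (g ^ n) ^ m ≠ 1 := by
      intro h
      apply h4
      rw [e5] at h
      rw [mul_eq_one_iff_eq_inv] at h
      rw [h]
      exact C.inv_mem h2
    rcases hc.tot _ h1 hne with h | h
    · exact h
    · exfalso
      apply h4
      refine hC.conv _ (C.inv_mem h2) x h3 ?_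
      rw [e5] at h
      have := hc.inv c _ h
      have e6 : c * (x * c)⁻¹ * c⁻¹ = x⁻¹ * c⁻¹ := by group
      rwa [e6] at this
  refine ⟨hDn, hDH, hDconv, ?_, ?_⟩
  · intro a ha b hb
    apply hiso2
    rw [map_mul]
    exact (thmA tfX hcX hengX (D.map q) hU (hiso1 a ha) (hiso1 b hb)).1
  · intro a ha b hb hpa hpb
    by_cases haT : a ∈ T
    · by_cases hbT : b ∈ T
      · exact hC.pos a haT b hbT hpa hpb
      · apply hpos2
        rw [map_mul, (hq1 a).2 haT, one_mul]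
        exact hpos1 b hbT hpb
    · by_cases hbT : b ∈ T
      · apply hpos2
        rw [map_mul, (hq1 b).2 hbT, mul_one]
        exact hpos1 a haT hpa
      · apply hpos2
        rw [map_mul]
        exact (thmA tfX hcX hengX (D.map q) hU (hiso1 a ha) (hiso1 b hb)).2
          (hpos1 a haT hpa) (hpos1 b hbT hpb)

end

end MP611b97
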