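import Pool.Agent.Work.MP_611b97_al.Cover

/-!
# Orders on torsion-free abelian groups, powers of products in ordered groups
-/

set_option autoImplicit false

namespace MP611b97

theorem addOrd_rat : AddOrd ℚ := by
  refine ⟨{q | 0 < q}, ?_, ?_, ?_⟩
  · intro a ha b hb
    exact add_pos (show 0 < a from ha) (show 0 < b from hb)
  · simp
  · intro g hg
    rcases lt_or_gt_of_ne hg with h | h
    · right
      simpa using h
    · exact Or.inl h

theorem addOrd_of_torsionFree (A : Type*) [AddCommGroup A] [IsAddTorsionFree A] : AddOrd A := by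
  let b := Module.Basis.ofVectorSpace ℚ (DivisibleHull A)
  refine (addOrd_rat.finsupp _).of_injective
    ((b.repr.toLinearMap.toAddMonoidHom).comp (DivisibleHull.coeAddMonoidHom A)) ?_
  exact b.repr.injective.comp DivisibleHull.coe_injective

/-- A cone on a torsion-free central subgroup, with a prescribed positive element. -/
theorem exists_cone_central {Γ : Type*} [Group Γ] {A : Subgroup Γ} (hA : A ≤ Subgroup.center Γ)
    (htf : ∀ a ∈ A, ∀ n : ℕ, 0 < n → a ^ n = 1 → a = 1) {d : Γ} (hd : d ∈ A) (hd1 : d ≠ 1) :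
    ∃ P : Set Γ, P ⊆ (A : Set Γ) ∧ (∀ a ∈ P, ∀ b ∈ P, a * b ∈ P) ∧ (1 : Γ) ∉ P ∧
      (∀ a ∈ A, a ≠ 1 → a ∈ P ∨ a⁻¹ ∈ P) ∧ d ∈ P := by
  have hcomm : ∀ a b : A, a * b = b * a := by
    intro a b
    apply Subtype.ext
    exact (Subgroup.mem_center_iff.1 (hA a.2) (b : Γ)).symm
  letI : CommGroup A := { (inferInstance : Group A) with mul_comm := hcomm }
  have htfA : IsMulTorsionFree A := by
    constructor
    intro n hn a b hab
    have hab' : a ^ n = b ^ n := hab
    have h1 : (a * b⁻¹) ^ n = 1 := by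
      rw [mul_pow, inv_pow, hab', mul_inv_cancel]
    have h2 : a * b⁻¹ = 1 := by
      apply Subtype.ext
      apply htf _ (a * b⁻¹).2 n (Nat.pos_of_ne_zero hn)
      have := congrArg Subtype.val h1
      simpa using this
    exact mul_inv_eq_one.1 h2
  obtain ⟨R, r1, r2, r3⟩ := addOrd_of_torsionFree (Additive A)
  -- the cone and its inverse
  have key : ∀ R : Set (Additive A), (∀ a ∈ R, ∀ b ∈ R, a + b ∈ R) → (0 : Additive A) ∉ R →
      (∀ g : Additive A, g ≠ 0 → g ∈ R ∨ -g ∈ R) → Additive.ofMul (⟨d, hd⟩ : A) ∈ R →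
      ∃ P : Set Γ, P ⊆ (A : Set Γ) ∧ (∀ a ∈ P, ∀ b ∈ P, a * b ∈ P) ∧ (1 : Γ) ∉ P ∧
      (∀ a ∈ A, a ≠ 1 → a ∈ P ∨ a⁻¹ ∈ P) ∧ d ∈ P := by
    intro R r1 r2 r3 r4
    refine ⟨{g | ∃ h : g ∈ A, Additive.ofMul (⟨g, h⟩ : A) ∈ R}, ?_, ?_, ?_, ?_, ?_⟩
    · rintro g ⟨h, _⟩
      exact h
    · rintro a ⟨ha, ha'⟩ b ⟨hb, hb'⟩
      exact ⟨A.mul_mem ha hb, r1 _ ha' _ hb'⟩
    · rintro ⟨h, h'⟩
      exact r2 h'
    · intro a ha ha1
      have hne : Additive.ofMul (⟨a, ha⟩ : A) ≠ 0 := by
        intro h
        apply ha1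
        have : (⟨a, ha⟩ : A) = 1 := h
        exact congrArg Subtype.val this
      rcases r3 _ hne with h | h
      · exact Or.inl ⟨ha, h⟩
      · exact Or.inr ⟨A.inv_mem ha, h⟩
    · exact ⟨hd, r4⟩
  have hdne : Additive.ofMul (⟨d, hd⟩ : A) ≠ 0 := by
    intro h
    apply hd1
    have : (⟨d, hd⟩ : A) = 1 := h
    exact congrArg Subtype.val this
  rcases r3 _ hdne with h | h
  · exact key R r1 r2 r3 h
  · refine key {g | -g ∈ R} ?_ ?_ ?_ h
    · intro a ha b hb
      simp only [Set.mem_setOf_eq] at *
      rw [neg_add]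
      exact r1 _ ha _ hb
    · simpa using r2
    · intro g hg
      simp only [Set.mem_setOf_eq]
      rcases r3 g hg with h | h
      · right; simpa using h
      · left; exact h

theorem pow_aux {A : Type*} [Group A] [LinearOrder A] [MulLeftMono A] [MulRightMono A]
    {a b : A} (h : a * b ≤ b * a) (n : ℕ) : (a * b) ^ n ≤ b ^ n * a ^ n := by
  have h1 : ∀ k : ℕ, a ^ k * b ≤ b * a ^ k := by
    intro k
    induction k with
    | zero => simp
    | succ k ih =>
      calc a ^ (k + 1) * b = a ^ k * (a * b) := by rw [pow_succ, mul_assoc]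
        _ ≤ a ^ k * (b * a) := mul_le_mul_right h _
        _ = a ^ k * b * a := by rw [mul_assoc]
        _ ≤ b * a ^ k * a := mul_le_mul_left ih _
        _ = b * a ^ (k + 1) := by rw [pow_succ, mul_assoc]
  induction n with
  | zero => simp
  | succ n ih =>
    calc (a * b) ^ (n + 1) = (a * b) ^ n * (a * b) := pow_succ _ _
      _ ≤ b ^ n * a ^ n * (a * b) := mul_le_mul_left ih _
      _ = b ^ n * (a ^ (n + 1) * b) := by rw [pow_succ]; simp only [mul_assoc]
      _ ≤ b ^ n * (b * a ^ (n + 1)) := mul_le_mul_right (h1 (n + 1)) _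
      _ = b ^ (n + 1) * a ^ (n + 1) := by rw [pow_succ b]; simp only [mul_assoc]

theorem pow_aux' {A : Type*} [Group A] [LinearOrder A] [MulLeftMono A] [MulRightMono A]
    {a b : A} (h : b * a ≤ a * b) (n : ℕ) : (a * b) ^ n ≤ a ^ n * b ^ n := by
  have h1 : ∀ k : ℕ, b * a ^ k ≤ a ^ k * b := by
    intro k
    induction k with
    | zero => simp
    | succ k ih =>
      calc b * a ^ (k + 1) = b * a ^ k * a := by rw [pow_succ, mul_assoc]
        _ ≤ a ^ k * b * a := mul_le_mul_left ih _
        _ = a ^ k * (b * a) := by rw [mul_assoc]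
        _ ≤ a ^ k * (a * b) := mul_le_mul_right h _
        _ = a ^ (k + 1) * b := by rw [pow_succ, mul_assoc]
  induction n with
  | zero => simp
  | succ n ih =>
    calc (a * b) ^ (n + 1) = (a * b) * (a * b) ^ n := pow_succ' _ _
      _ ≤ (a * b) * (a ^ n * b ^ n) := mul_le_mul_right ih _
      _ = a * (b * a ^ n) * b ^ n := by simp only [mul_assoc]
      _ ≤ a * (a ^ n * b) * b ^ n := mul_le_mul_left (mul_le_mul_right (h1 n) _) _
      _ = a ^ (n + 1) * b ^ (n + 1) := by rw [pow_succ' a, pow_succ' b]; simp only [mul_assoc]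

/-- In an ordered group `(ab)^n` is at most one of `a^n b^n`, `b^n a^n`. -/
theorem pow_between {A : Type*} [Group A] (R : Set A) (hmul : ∀ a ∈ R, ∀ b ∈ R, a * b ∈ R)
    (hone : (1 : A) ∉ R) (htot : ∀ a : A, a ≠ 1 → a ∈ R ∨ a⁻¹ ∈ R)
    (hconj : ∀ g : A, ∀ a ∈ R, g * a * g⁻¹ ∈ R) (a b : A) (n : ℕ)
    (h1 : (a ^ n * b ^ n)⁻¹ * (a * b) ^ n ∈ R) (h2 : (b ^ n * a ^ n)⁻¹ * (a * b) ^ n ∈ R) :
    False := by
  classical
  letI : LinearOrder A :=
    { le := fun x y => x = y ∨ x⁻¹ * y ∈ R
      lt := fun x y => x⁻¹ * y ∈ R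
      le_refl := fun x => Or.inl rfl
      le_trans := by
        intro x y z hxy hyz
        rcases hxy with rfl | hxy
        · exact hyz
        · rcases hyz with rfl | hyz
          · exact Or.inr hxy
          · right
            have := hmul _ hxy _ hyz
            simpa [mul_assoc] using this
      lt_iff_le_not_ge := by
        intro x y
        constructor
        · intro h
          refine ⟨Or.inr h, ?_⟩
          rintro (rfl | h')
          · simp at h; exact hone h
          · apply hone
            have := hmul _ h _ h'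
            simpa [mul_assoc] using this
        · rintro ⟨rfl | h, h'⟩
          · exact absurd (Or.inl rfl) h'
          · exact h
      le_antisymm := by
        intro x y hxy hyx
        rcases hxy with rfl | hxy
        · rfl
        · rcases hyx with rfl | hyx
          · rfl
          · exfalso
            apply hone
            have := hmul _ hxy _ hyx
            simpa [mul_assoc] using this
      le_total := by
        intro x y
        by_cases h : x = y
        · exact Or.inl (Or.inl h)
        · have : x⁻¹ * y ≠ 1 := by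
            intro h1
            rw [inv_mul_eq_one] at h1
            exact h h1
          rcases htot _ this with h1 | h1
          · exact Or.inl (Or.inr h1)
          · right; right
            simpa using h1
      toDecidableLE := Classical.decRel _ }
  have hlt : ∀ x y : A, x < y ↔ x⁻¹ * y ∈ R := fun x y => Iff.rfl
  have i1 : MulLeftStrictMono A := ⟨fun c x y h => by
    change (c * x) < (c * y)
    rw [hlt] at *
    simpa [mul_assoc] using h⟩
  have i2 : MulRightStrictMono A := ⟨fun c x y h => by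
    change (x * c) < (y * c)
    rw [hlt] at *
    have := hconj c⁻¹ _ h
    simpa [mul_assoc] using this⟩
  have i3 : MulLeftMono A := mulLeftMono_of_mulLeftStrictMono A
  have i4 : MulRightMono A := mulRightMono_of_mulRightStrictMono A
  rcases le_total (a * b) (b * a) with h | h
  · exact absurd (pow_aux h n) (not_le_of_gt ((hlt _ _).2 h2))
  · exact absurd (pow_aux' h n) (not_le_of_gt ((hlt _ _).2 h1))

end MP611b97
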