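import Pool.Agent.Work.MP_611b97_al.Final

/-!
# The top jump of a two-generator group
-/

set_option autoImplicit false

namespace MP611b97

variable {G : Type*} [Group G]
variable {H : Subgroup G} {P : Set G} {C D : Subgroup G}

theorem cvx_total (hc : Cone H P) (hC : Cvx H P C) (hD : Cvx H P D) : C ≤ D ∨ D ≤ C := by
  by_contra hcon
  rw [not_or] at hcon
  obtain ⟨h1, h2⟩ := hcon
  have key : ∀ {A B : Subgroup G}, Cvx H P A → ¬ A ≤ B → ∃ a ∈ P, a ∈ A ∧ a ∉ B := by
    intro A B hA hAB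
    rw [SetLike.not_le_iff_exists] at hAB
    obtain ⟨a, ha, hab⟩ := hAB
    have h1 : a ≠ 1 := by
      rintro rfl
      exact hab B.one_mem
    rcases hc.tot a (hA.1 ha) h1 with h | h
    · exact ⟨a, h, ha, hab⟩
    · refine ⟨a⁻¹, h, A.inv_mem ha, fun h' => hab ?_⟩
      simpa using B.inv_mem h'
  obtain ⟨a, haP, haC, haD⟩ := key hC h1
  obtain ⟨b, hbP, hbD, hbC⟩ := key hD h2
  have hne : a⁻¹ * b ≠ 1 := by
    intro h
    rw [inv_mul_eq_one] at h
    rw [h] at haD
    exact haD hbD
  rcases hc.tot _ (H.mul_mem (H.inv_mem (hc.sub haP)) (hc.sub hbP)) hne with h | h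
  · exact haD (hD.2 b hbD a haP h)
  · refine hbC (hC.2 a haC b hbP ?_)
    simpa using h

/-- The conjugate of a subgroup. -/
def cj (g : G) (C : Subgroup G) : Subgroup G := C.comap (MulAut.conj g⁻¹).toMonoidHom

theorem mem_cj (g : G) (C : Subgroup G) (y : G) : y ∈ cj g C ↔ g⁻¹ * y * g ∈ C := by
  unfold cj
  rw [Subgroup.mem_comap]
  simp

theorem cvx_cj (hc : Cone H P) [hH : H.Normal] (hC : Cvx H P C) (g : G) : Cvx H P (cj g C) := by
  constructor
  · intro y hy
    have h1 := hC.1 ((mem_cj g C y).1 hy)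
    have h2 := hH.conj_mem _ h1 g
    simpa [mul_assoc] using h2
  · intro c hcE x hx hxc
    rw [mem_cj] at *
    refine hC.2 _ hcE _ (hc.inv' g hx) ?_
    have := hc.inv' g hxc
    have e : (g⁻¹ * x * g)⁻¹ * (g⁻¹ * c * g) = g⁻¹ * (x⁻¹ * c) * g := by group
    rw [e]; exact this

theorem arch_le (hc : Cone H P) [hH : H.Normal] {u : G} (hu : u ∈ P) (hC : Cvx H P C)
    (huC : u ∈ C) : arch hc u hu ≤ C := by
  have key : ∀ z ∈ P, z ∈ arch hc u hu → z ∈ C := by
    rintro z hz ⟨_, n, _, h2⟩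
    exact hC.2 _ (C.pow_mem huC n) z hz h2
  intro z hz
  by_cases h1 : z = 1
  · rw [h1]; exact C.one_mem
  · rcases hc.tot z hz.1 h1 with h | h
    · exact key z h hz
    · have := key _ h ((arch hc u hu).inv_mem hz)
      simpa using C.inv_mem this

/-- The largest convex subgroup that does not contain `u`. -/
def below (H : Subgroup G) (P : Set G) (u : G) : Subgroup G :=
  sSup {C | Cvx H P C ∧ u ∉ C}

theorem cvx_bot (hc : Cone H P) : Cvx H P ⊥ := by
  refine ⟨bot_le, ?_⟩
  intro c hc' x hx hxc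
  exfalso
  rw [Subgroup.mem_bot] at hc'
  subst hc'
  rw [mul_one] at hxc
  exact hc.not_both hx hxc

theorem mem_below (hc : Cone H P) {u : G} (hu : u ∈ P) {z : G} :
    z ∈ below H P u ↔ ∃ C, (Cvx H P C ∧ u ∉ C) ∧ z ∈ C := by
  have hne : ({C | Cvx H P C ∧ u ∉ C} : Set (Subgroup G)).Nonempty := by
    refine ⟨⊥, cvx_bot hc, ?_⟩
    intro h
    rw [Subgroup.mem_bot] at h
    rw [h] at hu
    exact hc.one hu
  have hdir : DirectedOn (· ≤ ·) ({C | Cvx H P C ∧ u ∉ C} : Set (Subgroup G)) := by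
    rintro A ⟨hA, hA'⟩ B ⟨hB, hB'⟩
    rcases cvx_total hc hA hB with h | h
    · exact ⟨B, ⟨hB, hB'⟩, h, le_rfl⟩
    · exact ⟨A, ⟨hA, hA'⟩, le_rfl, h⟩
  unfold below
  rw [Subgroup.mem_sSup_of_directedOn hne hdir]
  rfl

theorem cvx_below (hc : Cone H P) {u : G} (hu : u ∈ P) : Cvx H P (below H P u) := by
  constructor
  · intro z hz
    obtain ⟨C, ⟨hC, _⟩, h⟩ := (mem_below hc hu).1 hz
    exact hC.1 h
  · intro c hcc x hx hxc
    obtain ⟨C, ⟨hC, h2⟩, h⟩ := (mem_below hc hu).1 hcc
    exact (mem_below hc hu).2 ⟨C, ⟨hC, h2⟩, hC.2 _ h x hx hxc⟩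

theorem not_mem_below (hc : Cone H P) {u : G} (hu : u ∈ P) : u ∉ below H P u := by
  intro h
  obtain ⟨C, ⟨_, h2⟩, h⟩ := (mem_below hc hu).1 h
  exact h2 h

theorem le_below {u : G} (hC : Cvx H P C) (h : u ∉ C) : C ≤ below H P u :=
  le_sSup ⟨hC, h⟩

/-- The quotient by a convex normal subgroup is ordered. -/
theorem quot_cone (hc : Cone H P) [hCn : C.Normal] (hC : Cvx H P C) :
    Cone (H.map (QuotientGroup.mk' C)) (QuotientGroup.mk' C '' (P \ (C : Set G))) := by
  have hq1 : ∀ g : G, QuotientGroup.mk' C g = 1 ↔ g ∈ C := fun g => QuotientGroup.eq_one_iff g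
  refine ⟨?_, ?_, ?_, ?_, ?_⟩
  · rintro _ ⟨a, ⟨ha, _⟩, rfl⟩
    exact Subgroup.mem_map_of_mem _ (hc.sub ha)
  · rintro _ ⟨a, ⟨ha, ha'⟩, rfl⟩ _ ⟨b, ⟨hb, hb'⟩, rfl⟩
    exact ⟨a * b, ⟨hc.mul _ ha _ hb, not_mem_mul hC ha hb hb'⟩, map_mul _ _ _⟩
  · rintro ⟨a, ⟨ha, ha'⟩, e⟩
    rw [hq1] at e
    exact ha' e
  · rintro _ ⟨h, hh, rfl⟩ hne
    have hhC : h ∉ C := fun hh' => hne ((hq1 h).2 hh')
    have h1 : h ≠ 1 := by
      rintro rfl
      exact hhC C.one_mem
    rcases hc.tot h hh h1 with hp | hp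
    · exact Or.inl ⟨h, ⟨hp, hhC⟩, rfl⟩
    · refine Or.inr ⟨h⁻¹, ⟨hp, ?_⟩, map_inv _ _⟩
      intro hh'
      apply hhC
      simpa using C.inv_mem hh'
  · rintro g' _ ⟨a, ⟨ha, ha'⟩, rfl⟩
    obtain ⟨g, rfl⟩ := QuotientGroup.mk'_surjective C g'
    refine ⟨g * a * g⁻¹, ⟨hc.inv g a ha, ?_⟩, by simp⟩
    intro h
    apply ha'
    have := hCn.conj_mem _ h g⁻¹
    simpa [mul_assoc] using this

/-- If the group is generated by `x` and `y`, whose `n`-th powers lie in the convex subgroup
generated by `u`, then modulo the largest convex subgroup not containing `u`, which is normal,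
the ordered subgroup is central. -/
theorem top_central (hc : Cone H P) [hH : H.Normal] {x y u : G}
    (hgen : Subgroup.closure {x, y} = ⊤) {n : ℕ} (hn : 0 < n) (hu : u ∈ P)
    (hx : x ^ n ∈ arch hc u hu) (hy : y ^ n ∈ arch hc u hu) :
    (below H P u).Normal ∧ ∀ s ∈ H, ∀ g : G, cm s g ∈ below H P u := by
  set N := below H P u with hN
  have hNc : Cvx H P N := cvx_below hc hu
  have huN : u ∉ N := not_mem_below hc hu
  set M := arch hc u hu with hM
  -- the convex subgroup generated by `u` normalises `N`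
  have h1 : ∀ m ∈ M, ∀ z, m⁻¹ * z * m ∈ N → z ∈ N := by
    intro m hm z hz
    have hu' : u ∉ cj m N := by
      intro h
      have h2 : M ≤ cj m N := arch_le hc hu (cvx_cj hc hNc m) h
      have h3 := h2 hm
      rw [mem_cj] at h3 h
      have h4 : m ∈ N := by simpa using h3
      apply huN
      have := N.mul_mem (N.mul_mem h4 h) (N.inv_mem h4)
      simpa [mul_assoc] using this
    exact le_below (cvx_cj hc hNc m) hu' ((mem_cj m N z).2 hz)
  -- elements with a power in `M` normalise `N`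
  have h2 : ∀ g : G, g ^ n ∈ M → ∀ z, g⁻¹ * z * g ∈ N → z ∈ N := by
    intro g hg z hz
    rcases cvx_total hc (cvx_cj hc hNc g) hNc with h | h
    · exact h ((mem_cj g N z).2 hz)
    · have h3 : ∀ w ∈ N, g⁻¹ * w * g ∈ N := fun w hw => (mem_cj g N w).1 (h hw)
      have h4 : ∀ k : ℕ, ∀ w ∈ N, (g ^ k)⁻¹ * w * g ^ k ∈ N := by
        intro k
        induction k with
        | zero => intro w hw; simpa using hw
        | succ k ih =>
          intro w hw
          have := h3 _ (ih w hw)
          rw [pow_succ]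
          simpa [mul_assoc] using this
      obtain ⟨j, rfl⟩ : ∃ j, n = j + 1 := ⟨n - 1, by omega⟩
      apply h1 _ hg z
      have := h4 j _ hz
      have e : (g ^ j)⁻¹ * (g⁻¹ * z * g) * g ^ j = (g ^ (j + 1))⁻¹ * z * g ^ (j + 1) := by
        rw [pow_succ']; group
      rwa [e] at this
  have h3 : ∀ g : G, g ^ n ∈ M → ∀ z ∈ N, g * z * g⁻¹ ∈ N ∧ g⁻¹ * z * g ∈ N := by
    intro g hg z hz
    constructor
    · apply h2 g hg
      simpa [mul_assoc] using hz
    · apply h2 g⁻¹ (by rw [inv_pow]; exact M.inv_mem hg)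
      simpa [mul_assoc] using hz
  have hNn : N.Normal := by
    have key : ∀ g : G, g ∈ Subgroup.closure {x, y} →
        ∀ z ∈ N, g * z * g⁻¹ ∈ N ∧ g⁻¹ * z * g ∈ N := by
      intro g hg
      refine Subgroup.closure_induction (p := fun g _ => ∀ z ∈ N, g * z * g⁻¹ ∈ N ∧ g⁻¹ * z * g ∈ N)
        ?_ ?_ ?_ ?_ hg
      · intro v hv
        simp only [Set.mem_insert_iff, Set.mem_singleton_iff] at hv
        rcases hv with rfl | rfl
        · exact h3 _ hx
        · exact h3 _ hy
      · intro z hz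
        simpa using hz
      · intro a b _ _ ha hb z hz
        constructor
        · have := (ha _ (hb z hz).1).1
          simpa [mul_assoc] using this
        · have := (hb _ (ha z hz).2).2
          simpa [mul_assoc] using this
      · intro a _ ha z hz
        have := ha z hz
        constructor
        · simpa using this.2
        · simpa using this.1
    constructor
    intro z hz g
    exact (key g (by rw [hgen]; trivial) z hz).1
  refine ⟨hNn, ?_⟩
  set q := QuotientGroup.mk' N with hq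
  have hqs : Function.Surjective q := QuotientGroup.mk'_surjective N
  have hcX := quot_cone hc hNc
  have hYn : (H.map q).Normal := Subgroup.Normal.map inferInstance q hqs
  have hMc : Cvx H P M := arch_cvx hc hu
  have hNM : N < M := by
    refine lt_of_le_of_ne (le_arch hc hNc hu huN) ?_
    intro h
    apply huN
    rw [h]
    exact arch_self hc hu
  have hmin : ∀ E, Cvx H P E → N < E → M ≤ E := by
    intro E hE hNE
    apply arch_le hc hu hE
    by_contra h
    exact absurd (le_below hE h) (not_le_of_gt hNE)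
  have hcommM : ∀ a ∈ M, ∀ b ∈ M, q a * q b = q b * q a := fun a ha b hb =>
    jump_comm hc hNc hMc hNM hmin ha hb
  -- passing from powers to elements
  have hroot : ∀ s ∈ H, ∀ g : G, Commute (q s) (q (g ^ n)) → Commute (q s) (q g) := by
    intro s hs g h
    rw [← cm_eq_one_iff]
    refine hcX.root (k := n) (Subgroup.mem_map_of_mem q hs) hn ?_
    rw [cm_eq_one_iff, ← map_pow]
    exact h
  have hgen' : ∀ a : G, Commute (q a) (q x) → Commute (q a) (q y) → ∀ g : G,
      Commute (q a) (q g) := by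
    intro a h1 h2 g
    have hg : g ∈ Subgroup.closure {x, y} := by rw [hgen]; trivial
    refine Subgroup.closure_induction (p := fun g _ => Commute (q a) (q g)) ?_ ?_ ?_ ?_ hg
    · intro v hv
      simp only [Set.mem_insert_iff, Set.mem_singleton_iff] at hv
      rcases hv with rfl | rfl
      · exact h1
      · exact h2
    · rw [map_one]; exact Commute.one_right _
    · intro a b _ _ ha hb
      rw [map_mul]; exact ha.mul_right hb
    · intro a _ ha
      rw [map_inv]; exact ha.inv_right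
  have hMcen : ∀ m ∈ M, ∀ g : G, Commute (q m) (q g) := by
    intro m hm
    apply hgen'
    · exact hroot m (hMc.1 hm) x (hcommM m hm _ hx)
    · exact hroot m (hMc.1 hm) y (hcommM m hm _ hy)
  intro s hs g
  rw [cm_mem_iff]
  apply hgen'
  · exact hroot s hs x (hMcen _ hx s).symm
  · exact hroot s hs y (hMcen _ hy s).symm

end MP611b97
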